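import Pool.Agent.Helper20.CK3.Stmts
import Pool.Agent.Helper20.CKP.StdE
import Pool.Agent.Helper20.CKP.Conv

/-!
# Compact Clifford-Klein forms of `U(3, n; K)`: the list
-/

set_option autoImplicit false

namespace Pool.Agent.Helper20.CK3

open Matrix Module Topology Filter NormedSpace Pool.Agent.Helper40.CK Pool.Agent.Helper17.CKF
  Pool.Agent.Helper29.CKP Pool.Agent.Helper20.CKP

/-- The spaces `p` of the list for `U(3, n; K)`: zero, the whole space, or `n` is a multiple of four
and it is the space of the `P(u xᵀ)` for a fixed nonzero `u`, or the space of the `P(B)` where the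
columns of `B` are orthogonal to a fixed nonzero `w`, or `K` is complex, `n` is even and it is the
space of the `P(U B)` where `B` has the rows `x`, `S (conj x)` for a fixed skew matrix `S` with
orthonormal columns and a fixed matrix `U` with two orthonormal columns. -/
def ThreeList (K : Type) [RCLike K] (n : ℕ)
    (q : Submodule ℝ (Matrix (Fin ((3 + n) + (3 + n))) (Fin ((3 + n) + (3 + n))) ℝ)) : Prop :=
  q = ⊥ ∨ q = pSpace (UpqK K 3 n) ∨
  (4 ∣ n ∧ ∃ u : Fin 3 → K, u ≠ 0 ∧ ∀ X, X ∈ q ↔ ∃ x : Fin n → K, X = pcK K 3 n (vecMulVec u x)) ∨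
  (4 ∣ n ∧ ∃ w : Fin 3 → K, w ≠ 0 ∧ ∀ X, X ∈ q ↔
    ∃ B : Matrix (Fin 3) (Fin n) K, star w ᵥ* B = 0 ∧ X = pcK K 3 n B) ∨
  (finrank ℝ K = 2 ∧ Even n ∧ ∃ (U : Matrix (Fin 3) (Fin 2) K) (S : Matrix (Fin n) (Fin n) K),
    Uᴴ * U = 1 ∧ Sᵀ = -S ∧ S * Sᴴ = 1 ∧
    ∀ X, X ∈ q ↔ ∃ x : Fin n → K, X = pcK K 3 n (U * Matrix.of ![x, S *ᵥ star x]))

/-- The size of a skew invertible matrix is even. -/
theorem even_of_skew {K : Type} [RCLike K] {n : ℕ} {S : Matrix (Fin n) (Fin n) K} (h1 : Sᵀ = -S)
    (h2 : S * Sᴴ = 1) : Even n := by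
  by_contra hodd
  rw [Nat.not_even_iff_odd] at hodd
  have h3 : S.det = -S.det := by
    have h4 := congrArg det h1
    rw [det_transpose, det_neg, Fintype.card_fin, hodd.neg_one_pow, neg_one_mul] at h4
    exact h4
  have h5 : S.det = 0 := by
    have h6 : (2 : K) * S.det = 0 := by linear_combination h3
    exact (mul_eq_zero.1 h6).resolve_left two_ne_zero
  have h7 := congrArg det h2
  rw [det_mul, h5, zero_mul, det_one] at h7
  exact zero_ne_one h7

/-- The trivial cases: `H` is compact or the quotient is compact. -/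
theorem exists_trivial {K : Type} [RCLike K] {r n : ℕ} {H : Subgroup (UpqK K r n)}
    (hH : IsReductive (H.map (UpqK K r n).subtype))
    (h : pSpace (H.map (UpqK K r n).subtype) = ⊥ ∨
      pSpace (H.map (UpqK K r n).subtype) = pSpace (UpqK K r n)) :
    ∃ L : Subgroup (UpqK K r n), IsReductive (L.map (UpqK K r n).subtype) ∧
      ActsProperlyCocompactly L H := by
  have hred := isReductive_upqK K r n
  have hCH : Cartan (oneM hred.closed) H (pSpace (H.map (UpqK K r n).subtype)) := cartan_one _ hH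
  rcases h with h | h
  · refine ⟨⊤, ?_, ?_⟩
    · rw [map_top_subtype]
      exact hred
    · rw [h] at hCH
      exact acts_top (oneM hred.closed) hCH
  · refine ⟨⊥, ?_, ?_⟩
    · rw [Subgroup.map_bot]
      refine ⟨?_, ?_, ?_⟩
      · rw [Subgroup.coe_bot]
        exact isClosed_singleton
      · intro g hg
        refine ⟨1, Subgroup.one_mem _, ?_⟩
        rw [Subgroup.mem_bot.1 hg, Units.val_one, transpose_one]
      · intro X hX hX1 t
        rw [Subgroup.mem_bot] at hX1 ⊢
        have h1 : NormedSpace.exp X = NormedSpace.exp 0 := by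
          rw [exp_zero, ← expGL_val, hX1, Units.val_one]
        have h2 : X = 0 := Pool.Agent.Helper17.CKF.exp_inj hX transpose_zero h1
        rw [h2, smul_zero]
        apply Units.ext
        rw [expGL_val, exp_zero, Units.val_one]
    · rw [h] at hCH
      exact acts_bot (oneM hred.closed) (cartan_top hred) hCH

end Pool.Agent.Helper20.CK3
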