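import Pool.Agent.Helper20.CKP.RList
import Pool.Agent.Helper59.ZD.Final
import Pool.Agent.Helper59.ZD.Grp
import Pool.Agent.Helper59.ZP.Grp
import Pool.Agent.Helper43.ZT.Dyadic

/-!
# The list of the reductive subgroups of real rank one
-/

namespace Pool.Agent.Helper20.CK3

open Matrix Module Pool.Agent.Helper40.CK Pool.Agent.Helper20.CKP Pool.Agent.Helper29.CKP
  Pool.Agent.Helper17.CKF

/-- The list for real rank one (the theorem of the hand-in `RankOneSubgroups`). -/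
theorem rank_one_list {K : Type} [RCLike K] {r n : ℕ}
    (hn : finrank ℝ K * r * (finrank ℝ K * r + 2) ≤ finrank ℝ K * n + 4)
    {H : Subgroup (UpqK K r n)} (hH : IsReductive (H.map (UpqK K r n).subtype))
    (h1 : RealRankLeOne (H.map (UpqK K r n).subtype)) (had : AdmitsCocompact H) :
    pSpace (H.map (UpqK K r n).subtype) = ⊥ ∨
    ((∀ t, 2 ^ t < 2 * r → 2 ^ t ∣ n) ∧ ∃ u : Fin r → K, u ≠ 0 ∧
      ∀ X, X ∈ pSpace (H.map (UpqK K r n).subtype) ↔
        ∃ x : Fin n → K, X = pcK K r n (vecMulVec u x)) ∨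
    (∃ (U : Matrix (Fin r) (Fin 2) K) (S : Matrix (Fin n) (Fin n) K),
      (finrank ℝ K = 1 → r = 2) ∧ Uᴴ * U = 1 ∧ Sᵀ = -S ∧ S * Sᴴ = 1 ∧
      ∀ X, X ∈ pSpace (H.map (UpqK K r n).subtype) ↔
        ∃ y : Fin n → K, X = pcK K r n (U * Matrix.of ![y, S *ᵥ star y])) ∨
    (finrank ℝ K = 1 ∧ ∃ (N : ℕ) (U : Matrix (Fin r) (Fin 4) K) (A : Matrix (Fin n) (Fin N) K)
      (I J : Matrix (Fin N) (Fin N) K), n ≤ N + 2 ∧ Uᴴ * U = 1 ∧ Aᴴ * A = 1 ∧ Iᵀ = -I ∧
      Jᵀ = -J ∧ I * I = -1 ∧ J * J = -1 ∧ I * J = -(J * I) ∧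
      ∀ X, X ∈ pSpace (H.map (UpqK K r n).subtype) ↔ ∃ y : Fin N → K, X = pcK K r n
        (U * Matrix.of ![A *ᵥ y, A *ᵥ (I *ᵥ y), A *ᵥ (J *ᵥ y), A *ᵥ ((I * J) *ᵥ y)])) := by
  have hmem := fun X => (pdataK K r n).mem_iff hH (X := X)
  rcases rank_one_unitary hn hH h1 had with h | ⟨u, hu, h⟩ | ⟨N, U, A, S, h1, h2, h3, h4, h5, h⟩ |
    ⟨hK, N, U, A, I, J, h1, h2, h3, h4, h5, h6, h7, h8, h⟩
  · exact Or.inl h
  · refine Or.inr (Or.inl ⟨fun t ht => ?_, u, hu, fun X => ?_⟩)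
    · exact Pool.Agent.Helper43.ZT.two_pow_dvd (pdataK K r n) hH had hu h t ht
    rw [hmem]
    constructor
    · rintro ⟨B, hB, rfl⟩
      obtain ⟨x, rfl⟩ := (h B).1 hB
      exact ⟨x, rfl⟩
    · rintro ⟨x, rfl⟩
      exact ⟨_, (h _).2 ⟨x, rfl⟩, rfl⟩
  · have hX : ∀ X, X ∈ pSpace (H.map (UpqK K r n).subtype) ↔
        ∃ y : Fin N → K, X = pcK K r n (U * Matrix.of ![A *ᵥ y, A *ᵥ (S *ᵥ star y)]) := by
      intro X
      rw [hmem]
      constructor
      · rintro ⟨B, hB, rfl⟩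
        obtain ⟨x, rfl⟩ := (h B).1 hB
        exact ⟨x, rfl⟩
      · rintro ⟨x, rfl⟩
        exact ⟨_, (h _).2 ⟨x, rfl⟩, rfl⟩
    rcases Nat.eq_zero_or_pos N with hN | hN
    · subst hN
      left
      rw [eq_bot_iff]
      intro X hXm
      obtain ⟨y, rfl⟩ := (hX X).1 hXm
      have h0 : y = 0 := Subsingleton.elim _ _
      simp only [h0, star_zero, Matrix.mulVec_zero]
      have h6 : (Matrix.of ![(0 : Fin n → K), (0 : Fin n → K)]) = 0 := by
        ext i j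
        fin_cases i <;> rfl
      rw [h6, Matrix.mul_zero, map_zero]
      exact Submodule.zero_mem _
    · have hr : 2 ≤ r := by
        have h6 : (Uᴴ * U).rank ≤ r := (Matrix.rank_mul_le_right _ _).trans (Matrix.rank_le_height _)
        rwa [h2, Matrix.rank_one, Fintype.card_fin] at h6
      have h6 : (Aᴴ * A).rank ≤ n := (Matrix.rank_mul_le_right _ _).trans (Matrix.rank_le_height _)
      rw [h3, Matrix.rank_one, Fintype.card_fin] at h6
      have hNn : N = n := by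
        by_contra hne
        rcases RCLike.I_eq_zero_or_im_I_eq_one (K := K) with hI | hI
        · exact Pool.Agent.Helper59.ZD.not_two (finrank_R hI) hH had (by omega) hN h2 h3 h4 h5 hX
        · exact Pool.Agent.Helper59.ZP.not_two_C (finrank_K hI) hH had (by omega) hN h2 h3 h4 h5 hX
      subst hNn
      have hA' : A * Aᴴ = 1 := mul_eq_one_comm.1 h3
      have hAT : Aᵀ * (Aᴴ)ᵀ = 1 := by
        rw [← transpose_mul, h3, transpose_one]
      refine Or.inr (Or.inr (Or.inl ⟨U, A * S * Aᵀ, fun hK => ?_, h2, ?_, ?_, fun X => ?_⟩))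
      · by_contra hr2
        have hr3 : 3 ≤ r := by omega
        rw [hK, one_mul, one_mul] at hn
        have h7 : 4 ≤ N := by nlinarith
        exact Pool.Agent.Helper59.ZD.not_two' hK hr3 hH had h6 h7 h2 h3 h4 h5 hX
      · rw [transpose_mul, transpose_mul, transpose_transpose, h4, Matrix.neg_mul, Matrix.mul_neg,
          Matrix.mul_assoc]
      · have h8 : (Aᵀ)ᴴ = (Aᴴ)ᵀ := rfl
        rw [conjTranspose_mul, conjTranspose_mul, h8]
        calc A * S * Aᵀ * (Aᴴᵀ * (Sᴴ * Aᴴ)) = A * (S * (Aᵀ * Aᴴᵀ) * Sᴴ) * Aᴴ := by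
              simp only [Matrix.mul_assoc]
          _ = 1 := by rw [hAT, Matrix.mul_one, h5, Matrix.mul_one, hA']
      · have key : ∀ y : Fin N → K, (A * S * Aᵀ) *ᵥ star (A *ᵥ y) = A *ᵥ (S *ᵥ star y) := by
          intro y
          have h9 : star (A *ᵥ y) = Aᴴᵀ *ᵥ star y := by
            rw [star_mulVec, mulVec_transpose]
          rw [h9, mulVec_mulVec, mulVec_mulVec, Matrix.mul_assoc (A * S), hAT, Matrix.mul_one]
        rw [hX]
        constructor
        · rintro ⟨y, rfl⟩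
          exact ⟨A *ᵥ y, by rw [key]⟩
        · rintro ⟨z, rfl⟩
          refine ⟨Aᴴ *ᵥ z, ?_⟩
          have h10 : A *ᵥ (Aᴴ *ᵥ z) = z := by
            rw [mulVec_mulVec, hA', one_mulVec]
          rw [← key, h10]
  · have hX : ∀ X, X ∈ pSpace (H.map (UpqK K r n).subtype) ↔ ∃ y : Fin N → K, X = pcK K r n
        (U * Matrix.of ![A *ᵥ y, A *ᵥ (I *ᵥ y), A *ᵥ (J *ᵥ y), A *ᵥ ((I * J) *ᵥ y)]) := by
      intro X
      rw [hmem]
      constructor
      · rintro ⟨B, hB, rfl⟩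
        obtain ⟨x, rfl⟩ := (h B).1 hB
        exact ⟨x, rfl⟩
      · rintro ⟨x, rfl⟩
        exact ⟨_, (h _).2 ⟨x, rfl⟩, rfl⟩
    rcases Nat.eq_zero_or_pos N with hN | hN
    · subst hN
      left
      rw [eq_bot_iff]
      intro X hXm
      obtain ⟨y, rfl⟩ := (hX X).1 hXm
      have h0 : y = 0 := Subsingleton.elim _ _
      simp only [h0, Matrix.mulVec_zero]
      have h6 : (Matrix.of ![(0 : Fin n → K), (0 : Fin n → K), (0 : Fin n → K),
          (0 : Fin n → K)]) = 0 := by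
        ext i j
        fin_cases i <;> rfl
      rw [h6, Matrix.mul_zero, map_zero]
      exact Submodule.zero_mem _
    · refine Or.inr (Or.inr (Or.inr ⟨hK, N, U, A, I, J, ?_, h2, h3, h4, h5, h6, h7, h8, hX⟩))
      by_contra hlt
      exact Pool.Agent.Helper59.ZD.not_four hK hH had (by omega) hN h2 h3 h4 h5 h6 h7 h8 hX

end Pool.Agent.Helper20.CK3
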