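import Pool.Agent.Helper20.CK3.List3

/-!
# Compact Clifford-Klein forms of `U(2, n; K)` and `U(3, n; K)`: the common list
-/

set_option autoImplicit false

namespace Pool.Agent.Helper20.CK3

open Matrix Module Pool.Agent.Helper40.CK Pool.Agent.Helper17.CKF
  Pool.Agent.Helper29.CKP Pool.Agent.Helper20.CKP

/-- The spaces `p` of the list for `U(r, n; K)`, `r = 2, 3`: zero, the whole space, or `2 ^ (r - 1)`
divides `n` and it is the space of the `P(B)` where the columns of `B` are in a fixed subspace of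
`K ^ r`, which is not zero and not the whole space, or `n` is even, `K` is complex or `r = 2`, and it
is the space of the `P(U B)` where `B` has the rows `x`, `S (conj x)` for a fixed skew matrix `S` with
orthonormal columns and a fixed matrix `U` with two orthonormal columns. -/
def UList (K : Type) [RCLike K] (r n : ℕ)
    (q : Submodule ℝ (Matrix (Fin ((r + n) + (r + n))) (Fin ((r + n) + (r + n))) ℝ)) : Prop :=
  q = ⊥ ∨ q = pSpace (UpqK K r n) ∨
  (2 ^ (r - 1) ∣ n ∧ ∃ W : Submodule K (Fin r → K), W ≠ ⊥ ∧ W ≠ ⊤ ∧ ∀ X, X ∈ q ↔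
    ∃ B : Matrix (Fin r) (Fin n) K, (∀ j, (fun i => B i j) ∈ W) ∧ X = pcK K r n B) ∨
  (Even n ∧ (finrank ℝ K = 1 → r = 2) ∧
    ∃ (U : Matrix (Fin r) (Fin 2) K) (S : Matrix (Fin n) (Fin n) K),
    Uᴴ * U = 1 ∧ Sᵀ = -S ∧ S * Sᴴ = 1 ∧
    ∀ X, X ∈ q ↔ ∃ x : Fin n → K, X = pcK K r n (U * Matrix.of ![x, S *ᵥ star x]))

variable {K : Type} [RCLike K] {r n : ℕ}

/-- The matrices `u xᵀ` are those with the columns in the line of `u`. -/
theorem cols_line (u : Fin r → K) (B : Matrix (Fin r) (Fin n) K) :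
    (∀ j, (fun i => B i j) ∈ Submodule.span K {u}) ↔ ∃ x : Fin n → K, B = vecMulVec u x := by
  constructor
  · intro h
    choose c hc using fun j => Submodule.mem_span_singleton.1 (h j)
    refine ⟨c, ?_⟩
    ext i j
    rw [vecMulVec_apply, mul_comm]
    exact (congrFun (hc j) i).symm
  · rintro ⟨x, rfl⟩ j
    refine Submodule.mem_span_singleton.2 ⟨x j, ?_⟩
    funext i
    rw [vecMulVec_apply, Pi.smul_apply, smul_eq_mul, mul_comm]

theorem span_ne_top (hr : 2 ≤ r) (u : Fin r → K) : Submodule.span K {u} ≠ ⊤ := by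
  intro h
  have h2 : finrank K (⊤ : Submodule K (Fin r → K)) = r := by
    rw [finrank_top, Module.finrank_fin_fun]
  by_cases hu : u = 0
  · rw [hu, Submodule.span_zero_singleton] at h
    rw [← h, finrank_bot] at h2
    omega
  · rw [← h, finrank_span_singleton hu] at h2
    omega

theorem span_ne_bot {u : Fin r → K} (hu : u ≠ 0) : Submodule.span K {u} ≠ ⊥ := by
  rw [Ne, Submodule.span_singleton_eq_bot]
  exact hu

/-- the first type -/
theorem ulist_line (hr : 2 ≤ r) (hdvd : 2 ^ (r - 1) ∣ n) {u : Fin r → K} (hu : u ≠ 0)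
    {q : Submodule ℝ (Matrix (Fin ((r + n) + (r + n))) (Fin ((r + n) + (r + n))) ℝ)}
    (h : ∀ X, X ∈ q ↔ ∃ x : Fin n → K, X = pcK K r n (vecMulVec u x)) : UList K r n q := by
  refine Or.inr (Or.inr (Or.inl ⟨hdvd, Submodule.span K {u}, span_ne_bot hu, span_ne_top hr u,
    fun X => ?_⟩))
  rw [h]
  constructor
  · rintro ⟨x, rfl⟩
    exact ⟨_, (cols_line u _).2 ⟨x, rfl⟩, rfl⟩
  · rintro ⟨B, hB, rfl⟩
    obtain ⟨x, rfl⟩ := (cols_line u B).1 hB
    exact ⟨x, rfl⟩

theorem ulist_of_two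
    {q : Submodule ℝ (Matrix (Fin ((2 + n) + (2 + n))) (Fin ((2 + n) + (2 + n))) ℝ)}
    (h : TwoList K n q) : UList K 2 n q := by
  rcases h with h | h | ⟨hev, ⟨u, hu, h⟩ | ⟨S, hT, hS, h⟩⟩
  · exact Or.inl h
  · exact Or.inr (Or.inl h)
  · exact ulist_line le_rfl (by simpa using hev.two_dvd) hu h
  · refine Or.inr (Or.inr (Or.inr ⟨hev, fun _ => rfl, 1, S, ?_, hT, hS, fun X => ?_⟩))
    · rw [Matrix.mul_one, conjTranspose_one]
    · rw [h]
      simp only [Matrix.one_mul]

theorem ulist_of_three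
    {q : Submodule ℝ (Matrix (Fin ((3 + n) + (3 + n))) (Fin ((3 + n) + (3 + n))) ℝ)}
    (h : ThreeList K n q) : UList K 3 n q := by
  rcases h with h | h | ⟨hdvd, u, hu, h⟩ | ⟨hdvd, w, hw, h⟩ | ⟨hK, hev, U, S, hU, hT, hS, h⟩
  · exact Or.inl h
  · exact Or.inr (Or.inl h)
  · exact ulist_line (by norm_num) (by simpa using hdvd) hu h
  · let f : (Fin 3 → K) →ₗ[K] K :=
      { toFun := fun v => star w ⬝ᵥ v
        map_add' := fun a b => dotProduct_add _ _ _
        map_smul' := fun c a => dotProduct_smul _ _ _ }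
    have hf : ∀ v, v ∈ LinearMap.ker f ↔ star w ⬝ᵥ v = 0 := fun v => LinearMap.mem_ker
    refine Or.inr (Or.inr (Or.inl ⟨by simpa using hdvd, LinearMap.ker f, ?_, ?_, fun X => ?_⟩))
    · intro h0
      have h1 := f.finrank_range_add_finrank_ker
      rw [h0, finrank_bot, add_zero, Module.finrank_fin_fun] at h1
      have h2 := Submodule.finrank_le (LinearMap.range f)
      rw [Module.finrank_self] at h2
      omega
    · intro h0
      have h1 : w ∈ LinearMap.ker f := by
        rw [h0]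
        exact Submodule.mem_top
      rw [hf] at h1
      have h2 := re_hip_self_pos hw
      rw [hip, h1, map_zero] at h2
      exact lt_irrefl _ h2
    · rw [h]
      constructor
      · rintro ⟨B, hB, rfl⟩
        exact ⟨B, fun j => (hf _).2 (congrFun hB j), rfl⟩
      · rintro ⟨B, hB, rfl⟩
        exact ⟨B, funext fun j => (hf _).1 (hB j), rfl⟩
  · refine Or.inr (Or.inr (Or.inr ⟨hev, fun h1 => ?_, U, S, hU, hT, hS, h⟩))
    omega

theorem S_conj {S : Matrix (Fin n) (Fin n) K} (hT : Sᵀ = -S) (hS : S * Sᴴ = 1)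
    (x : Fin n → K) : S *ᵥ star (S *ᵥ star x) = -x := by
  rw [Matrix.star_mulVec, star_star, ← Matrix.mulVec_transpose, Matrix.mulVec_mulVec]
  have e : (Sᴴ)ᵀ = -Sᴴ := by
    have h1 : (Sᴴ)ᵀ = (Sᵀ)ᴴ := rfl
    rw [h1, hT, conjTranspose_neg]
  rw [e, Matrix.mul_neg, hS, Matrix.neg_mulVec, Matrix.one_mulVec]

theorem two_of_ulist
    {q : Submodule ℝ (Matrix (Fin ((2 + n) + (2 + n))) (Fin ((2 + n) + (2 + n))) ℝ)}
    (h : UList K 2 n q) : TwoList K n q := by
  rcases h with h | h | ⟨hdvd, W, hW0, hW1, h⟩ | ⟨hev, -, U, S, hU, hT, hS, h⟩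
  · exact Or.inl h
  · exact Or.inr (Or.inl h)
  · have h1 : finrank K W = 1 := by
      have h2 : finrank K W < finrank K (Fin 2 → K) := Submodule.finrank_lt hW1
      have h3 : finrank K W ≠ 0 := fun h0 => hW0 (Submodule.finrank_eq_zero.1 h0)
      rw [Module.finrank_fin_fun] at h2
      omega
    obtain ⟨u, hu0, hu⟩ := finrank_eq_one_iff'.1 h1
    have hW : W = Submodule.span K {(u : Fin 2 → K)} := by
      ext v
      rw [Submodule.mem_span_singleton]
      constructor
      · intro hv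
        obtain ⟨c, hc⟩ := hu ⟨v, hv⟩
        exact ⟨c, congrArg Subtype.val hc⟩
      · rintro ⟨c, rfl⟩
        exact W.smul_mem c u.2
    obtain ⟨v, hv⟩ : ∃ v : Fin 2 → K, v = u := ⟨_, rfl⟩
    rw [← hv] at hW
    refine Or.inr (Or.inr ⟨(even_iff_two_dvd).2 (by simpa using hdvd), Or.inl ⟨v, ?_, fun X => ?_⟩⟩)
    · intro h0
      exact hu0 (Subtype.ext (hv ▸ h0))
    · clear hv hu hu0 u
      rw [h, hW]
      constructor
      · rintro ⟨B, hB, rfl⟩
        obtain ⟨x, rfl⟩ := (cols_line _ B).1 hB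
        exact ⟨x, rfl⟩
      · rintro ⟨x, rfl⟩
        exact ⟨_, (cols_line _ _).2 ⟨x, rfl⟩, rfl⟩
  · have hU' : U * Uᴴ = 1 := mul_eq_one_comm.1 hU
    have hadj : adjugate U = U.det • Uᴴ := by
      calc adjugate U = Uᴴ * U * adjugate U := by rw [hU, Matrix.one_mul]
        _ = U.det • Uᴴ := by rw [Matrix.mul_assoc, mul_adjugate, Matrix.mul_smul, Matrix.mul_one]
    have a1 : U 1 1 = U.det * star (U 0 0) := by
      have := congrFun (congrFun hadj 0) 0
      rw [adjugate_fin_two] at this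
      simpa using this
    have a2 : -U 1 0 = U.det * star (U 0 1) := by
      have := congrFun (congrFun hadj 1) 0
      rw [adjugate_fin_two] at this
      simpa using this
    have a3 : U 0 0 * star (U 0 0) + U 0 1 * star (U 0 1) = 1 := by
      have := congrFun (congrFun hU' 0) 0
      rw [Matrix.mul_apply, Fin.sum_univ_two] at this
      simpa using this
    have a4 : U.det * star U.det = 1 := by
      have := congrArg det hU'
      rwa [det_mul, det_conjTranspose, det_one] at this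
    have key : ∀ x : Fin n → K, U * Matrix.of ![x, S *ᵥ star x] =
        Matrix.of ![U 0 0 • x + U 0 1 • (S *ᵥ star x),
          (U.det • S) *ᵥ star (U 0 0 • x + U 0 1 • (S *ᵥ star x))] := by
      intro x
      have e1 : S *ᵥ star (U 0 0 • x + U 0 1 • (S *ᵥ star x)) =
          star (U 0 0) • (S *ᵥ star x) - star (U 0 1) • x := by
        rw [star_add, star_smul, star_smul, Matrix.mulVec_add, Matrix.mulVec_smul,
          Matrix.mulVec_smul, S_conj hT hS, smul_neg, sub_eq_add_neg]
      have e2 : (U.det • S) *ᵥ star (U 0 0 • x + U 0 1 • (S *ᵥ star x)) =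
          U 1 0 • x + U 1 1 • (S *ᵥ star x) := by
        rw [Matrix.smul_mulVec, e1, smul_sub, smul_smul, smul_smul, ← a1, ← a2, neg_smul,
          sub_neg_eq_add, add_comm]
      rw [e2]
      ext i j
      rw [Matrix.mul_apply, Fin.sum_univ_two]
      fin_cases i <;> rfl
    refine Or.inr (Or.inr ⟨hev, Or.inr ⟨U.det • S, ?_, ?_, fun X => ?_⟩⟩)
    · rw [transpose_smul, hT, smul_neg]
    · rw [conjTranspose_smul, Matrix.smul_mul, Matrix.mul_smul, hS, smul_smul, a4, one_smul]
    · rw [h]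
      constructor
      · rintro ⟨x, rfl⟩
        exact ⟨_, by rw [key]⟩
      · rintro ⟨y, rfl⟩
        refine ⟨star (U 0 0) • y - U 0 1 • (S *ᵥ star y), ?_⟩
        rw [key]
        have e3 : U 0 0 • (star (U 0 0) • y - U 0 1 • (S *ᵥ star y)) +
            U 0 1 • (S *ᵥ star (star (U 0 0) • y - U 0 1 • (S *ᵥ star y))) = y := by
          rw [star_sub, star_smul, star_smul, Matrix.mulVec_sub, Matrix.mulVec_smul,
            Matrix.mulVec_smul, S_conj hT hS, star_star, smul_neg]
          calc U 0 0 • (star (U 0 0) • y - U 0 1 • (S *ᵥ star y)) +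
                U 0 1 • (U 0 0 • (S *ᵥ star y) - -(star (U 0 1) • y))
              = (U 0 0 * star (U 0 0) + U 0 1 * star (U 0 1)) • y := by module
            _ = y := by rw [a3, one_smul]
        rw [e3]

end Pool.Agent.Helper20.CK3
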