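import Pool.Agent.Helper20.CK3.Stmts

/-!
# CK3: Lie triple systems of matrices with three rows
-/

set_option autoImplicit false

namespace Pool.Agent.Helper20.CK3

open Matrix Module

variable {K : Type} [RCLike K] {n : ℕ}

/-- real diagonal matrices -/
noncomputable def di (K : Type) [RCLike K] (s : Fin 3 → ℝ) : Matrix (Fin 3) (Fin 3) K :=
  Matrix.diagonal fun i => ((s i : ℝ) : K)

theorem di_star (s : Fin 3 → ℝ) : (di K s)ᴴ = di K s := by
  unfold di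
  rw [diagonal_conjTranspose]
  congr 1
  funext i
  exact RCLike.conj_ofReal _

theorem di_mul_di (s t : Fin 3 → ℝ) : di K s * di K t = di K (fun i => s i * t i) := by
  unfold di
  rw [diagonal_mul_diagonal]
  congr 1
  funext i
  push_cast
  rfl

/-- the column with the index `l` -/
def co (hn : 3 ≤ n) (l : Fin 3) : Fin n := Fin.castLE hn l

theorem co_inj (hn : 3 ≤ n) {l m : Fin 3} : co hn l = co hn m ↔ l = m := by
  unfold co
  exact Fin.castLE_inj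

theorem dg_apply (hn : 3 ≤ n) (s : Fin 3 → ℝ) (i : Fin 3) (j : Fin n) :
    dg K n s i j = if j = co hn i then ((s i : ℝ) : K) else 0 := by
  unfold dg co
  rw [Matrix.of_apply]
  by_cases h : (i : ℕ) = (j : ℕ)
  · rw [if_pos h, if_pos]
    exact Fin.ext h.symm
  · rw [if_neg h, if_neg]
    intro h'
    exact h (by rw [h']; rfl)

/-- the matrix `(1, 0)` -/
noncomputable def J (K : Type) [RCLike K] (n : ℕ) : Matrix (Fin 3) (Fin n) K :=
  dg K n fun _ => 1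

theorem dg_eq (s : Fin 3 → ℝ) : dg K n s = di K s * J K n := by
  ext i j
  unfold di J dg
  rw [diagonal_mul, Matrix.of_apply, Matrix.of_apply]
  split_ifs
  · simp
  · simp

theorem mul_J (hn : 3 ≤ n) (X : Matrix (Fin 3) (Fin n) K) (i l : Fin 3) :
    (X * (J K n)ᴴ) i l = X i (co hn l) := by
  rw [Matrix.mul_apply]
  simp only [conjTranspose_apply, J, dg_apply hn]
  rw [Finset.sum_eq_single (co hn l)]
  · rw [if_pos rfl]
    simp
  · intro j _ hj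
    rw [if_neg hj, star_zero, mul_zero]
  · intro h
    exact absurd (Finset.mem_univ _) h

theorem J_mul_J (hn : 3 ≤ n) : J K n * (J K n)ᴴ = 1 := by
  ext i l
  rw [mul_J hn]
  unfold J
  rw [dg_apply hn, Matrix.one_apply]
  by_cases h : i = l
  · subst h
    rw [if_pos rfl, if_pos rfl]
    simp
  · rw [if_neg h, if_neg]
    intro h'
    exact h ((co_inj hn).1 h').symm

section Tri

variable {V : Submodule ℝ (Matrix (Fin 3) (Fin n) K)}

theorem Lts.pol (h : Lts V) {A B C : Matrix (Fin 3) (Fin n) K} (hA : A ∈ V) (hB : B ∈ V)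
    (hC : C ∈ V) : (2 : ℝ) • (A * Cᴴ * B) + (2 : ℝ) • (B * Cᴴ * A) - C * Aᴴ * B - C * Bᴴ * A -
      A * Bᴴ * C - B * Aᴴ * C ∈ V := by
  have h1 := h (A + B) (V.add_mem hA hB) C hC
  have h2 := h A hA C hC
  have h3 := h B hB C hC
  have h4 := V.sub_mem (V.sub_mem h1 h2) h3
  have e : (2 : ℝ) • ((A + B) * Cᴴ * (A + B)) - C * (A + B)ᴴ * (A + B) -
      (A + B) * (A + B)ᴴ * C - ((2 : ℝ) • (A * Cᴴ * A) - C * Aᴴ * A - A * Aᴴ * C) -
      ((2 : ℝ) • (B * Cᴴ * B) - C * Bᴴ * B - B * Bᴴ * C) =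
      (2 : ℝ) • (A * Cᴴ * B) + (2 : ℝ) • (B * Cᴴ * A) - C * Aᴴ * B - C * Bᴴ * A -
      A * Bᴴ * C - B * Aᴴ * C := by
    simp only [conjTranspose_add, Matrix.mul_add, Matrix.add_mul, two_smul]
    abel
  rwa [e] at h4

/-- the Lie triple product `[[A, B], C]` -/
theorem Lts.tri (h : Lts V) {A B C : Matrix (Fin 3) (Fin n) K} (hA : A ∈ V) (hB : B ∈ V)
    (hC : C ∈ V) : A * Bᴴ * C + C * Bᴴ * A - B * Aᴴ * C - C * Aᴴ * B ∈ V := by
  have h1 := h.pol hC hA hB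
  have h2 := h.pol hC hB hA
  have h3 := V.smul_mem (1 / 3 : ℝ) (V.sub_mem h1 h2)
  have e : (1 / 3 : ℝ) • ((2 : ℝ) • (C * Bᴴ * A) + (2 : ℝ) • (A * Bᴴ * C) - B * Cᴴ * A - B * Aᴴ * C -
      C * Aᴴ * B - A * Cᴴ * B - ((2 : ℝ) • (C * Aᴴ * B) + (2 : ℝ) • (B * Aᴴ * C) - A * Cᴴ * B -
        A * Bᴴ * C - C * Bᴴ * A - B * Cᴴ * A)) =
      A * Bᴴ * C + C * Bᴴ * A - B * Aᴴ * C - C * Aᴴ * B := by
    module
  rwa [e] at h3

/-- `X` is in `V` and its first three columns are zero. -/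
def Tl (V : Submodule ℝ (Matrix (Fin 3) (Fin n) K)) (X : Matrix (Fin 3) (Fin n) K) : Prop :=
  X ∈ V ∧ X * (J K n)ᴴ = 0

theorem tl_dg {X : Matrix (Fin 3) (Fin n) K} (hX : X * (J K n)ᴴ = 0) (s : Fin 3 → ℝ) :
    X * (dg K n s)ᴴ = 0 := by
  rw [dg_eq, conjTranspose_mul, ← Matrix.mul_assoc, hX, Matrix.zero_mul]

theorem tl_dg' {X : Matrix (Fin 3) (Fin n) K} (hX : X * (J K n)ᴴ = 0) (s : Fin 3 → ℝ) :
    dg K n s * Xᴴ = 0 := by
  have h1 := congrArg conjTranspose (tl_dg hX s)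
  rwa [conjTranspose_mul, conjTranspose_conjTranspose, conjTranspose_zero] at h1

theorem dg_mul_dg (hn : 3 ≤ n) (s t : Fin 3 → ℝ) :
    dg K n s * (dg K n t)ᴴ = di K (fun i => s i * t i) := by
  rw [dg_eq, dg_eq, conjTranspose_mul, di_star, Matrix.mul_assoc, ← Matrix.mul_assoc (J K n),
    J_mul_J hn, Matrix.one_mul, di_mul_di]

/-- scaling of the rows -/
theorem Tl.scale (hn : 3 ≤ n) (h : Lts V) {X : Matrix (Fin 3) (Fin n) K} (hX : Tl V X)
    {s t : Fin 3 → ℝ} (hs : dg K n s ∈ V) (ht : dg K n t ∈ V) :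
    Tl V (di K (fun i => s i * t i) * X) := by
  refine ⟨?_, by rw [Matrix.mul_assoc, hX.2, Matrix.mul_zero]⟩
  have h3 := h.tri hX.1 ht hs
  rw [tl_dg hX.2, tl_dg' hX.2, tl_dg' hX.2, Matrix.zero_mul, Matrix.zero_mul,
    dg_mul_dg hn, zero_add, sub_zero, sub_zero] at h3
  exact h3

/-- `X Zᴴ D` -/
theorem Tl.prod (h : Lts V) {X Z : Matrix (Fin 3) (Fin n) K} (hX : Tl V X) (hZ : Tl V Z)
    {s : Fin 3 → ℝ} (hs : dg K n s ∈ V) : X * Zᴴ * dg K n s ∈ V := by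
  have h1 := h.tri hZ.1 hs hX.1
  rw [tl_dg hZ.2, tl_dg hX.2, tl_dg' hZ.2, Matrix.zero_mul, Matrix.zero_mul,
    add_zero, sub_zero, zero_sub] at h1
  exact (V.neg_mem_iff).1 h1

end Tri

end Pool.Agent.Helper20.CK3
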