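import Pool.Agent.Helper20.CK3.Alg1

/-!
# CK3: Lie triple systems of matrices with three rows, the planes which are not coordinate planes
-/

set_option autoImplicit false

namespace Pool.Agent.Helper20.CK3

open Matrix Module

variable {K : Type} [RCLike K] {n : ℕ} {V : Submodule ℝ (Matrix (Fin 3) (Fin n) K)}

/-- The row `i`. -/
def rowL (K : Type) [RCLike K] (n : ℕ) (i : Fin 3) :
    Matrix (Fin 3) (Fin n) K →ₗ[ℝ] (Fin n → K) where
  toFun X := X i
  map_add' _ _ := rfl
  map_smul' _ _ := rfl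

/-- A dimension bound. -/
theorem dim_le_of_inj {F : Type} [AddCommGroup F] [Module ℝ F] [FiniteDimensional ℝ F]
    (g : Matrix (Fin 3) (Fin n) K →ₗ[ℝ] F)
    (hg : ∀ X, Tl V X → g X = 0 → X = 0) :
    finrank ℝ V ≤ 9 * finrank ℝ K + finrank ℝ F := by
  let f : Matrix (Fin 3) (Fin n) K →ₗ[ℝ] Matrix (Fin 3) (Fin 3) K :=
    { toFun := fun X => X * (J K n)ᴴ
      map_add' := fun X Y => Matrix.add_mul _ _ _
      map_smul' := fun c X => Matrix.smul_mul _ _ _ }
  let h : V →ₗ[ℝ] Matrix (Fin 3) (Fin 3) K × F := (f.prod g).comp V.subtype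
  have hinj : Function.Injective h := by
    rw [injective_iff_map_eq_zero]
    intro X hX
    have h1 : f (X : Matrix (Fin 3) (Fin n) K) = 0 := congrArg Prod.fst hX
    have h2 : g (X : Matrix (Fin 3) (Fin n) K) = 0 := congrArg Prod.snd hX
    exact Subtype.ext (hg X ⟨X.2, h1⟩ h2)
  have h1 := LinearMap.finrank_le_finrank_of_injective hinj
  rw [finrank_prod, Module.finrank_matrix, Fintype.card_fin] at h1
  exact h1

theorem finrank_row : finrank ℝ (Fin n → K) = n * finrank ℝ K := by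
  rw [Module.finrank_pi_fintype, Finset.sum_const, Finset.card_univ, Fintype.card_fin, smul_eq_mul]

/-- The projector to the row `l`. -/
def pr (l : Fin 3) : Fin 3 → ℝ := fun i => if i = l then 1 else 0

theorem di_mul_apply (s : Fin 3 → ℝ) (X : Matrix (Fin 3) (Fin n) K) (i : Fin 3) (j : Fin n) :
    (di K s * X) i j = ((s i : ℝ) : K) * X i j := by
  unfold di
  rw [diagonal_mul]

/-- The rows of the elements of `V` with zero columns, generic case. -/
theorem Tl.row (hn : 3 ≤ n) (h : Lts V) {s : Fin 3 → ℝ} (hs : dg K n s ∈ V) {l m m' : Fin 3}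
    (hc : ∀ r, r = l ∨ r = m ∨ r = m') (h1 : s l ^ 2 ≠ s m ^ 2) (h2 : s l ^ 2 ≠ s m' ^ 2)
    {X : Matrix (Fin 3) (Fin n) K} (hX : Tl V X) : Tl V (di K (pr l) * X) := by
  have h3 : ∀ Y, Tl V Y → ∀ c : ℝ, Tl V (di K (fun i => s i ^ 2 - c) * Y) := by
    intro Y hY c
    have h4 := hY.scale hn h hs hs
    have e : di K (fun i => s i ^ 2 - c) * Y = di K (fun i => s i * s i) * Y - c • Y := by
      ext i j
      rw [Matrix.sub_apply, di_mul_apply, di_mul_apply, Matrix.smul_apply, RCLike.real_smul_eq_coe_mul]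
      push_cast
      ring
    rw [e]
    refine ⟨V.sub_mem h4.1 (V.smul_mem c hY.1), ?_⟩
    rw [Matrix.sub_mul, h4.2, Matrix.smul_mul, hY.2, smul_zero, sub_zero]
  have h5 := h3 _ (h3 X hX (s m ^ 2)) (s m' ^ 2)
  have h6 : (s l ^ 2 - s m ^ 2) * (s l ^ 2 - s m' ^ 2) ≠ 0 :=
    mul_ne_zero (sub_ne_zero.2 h1) (sub_ne_zero.2 h2)
  have e : di K (pr l) * X = ((s l ^ 2 - s m ^ 2) * (s l ^ 2 - s m' ^ 2))⁻¹ •
      (di K (fun i => s i ^ 2 - s m' ^ 2) * (di K (fun i => s i ^ 2 - s m ^ 2) * X)) := by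
    ext i j
    rw [Matrix.smul_apply, di_mul_apply, di_mul_apply, di_mul_apply,
      RCLike.real_smul_eq_coe_mul]
    unfold pr
    rcases hc i with rfl | rfl | rfl
    · rw [if_pos rfl]
      have h7 : (((s i ^ 2 - s m ^ 2) * (s i ^ 2 - s m' ^ 2) : ℝ) : K) ≠ 0 := by
        exact_mod_cast h6
      have h8 : (((s i ^ 2 - s m ^ 2) * (s i ^ 2 - s m' ^ 2))⁻¹ : ℝ) *
          ((s i ^ 2 - s m' ^ 2) * (s i ^ 2 - s m ^ 2)) = 1 := by
        rw [mul_comm (s i ^ 2 - s m' ^ 2)]
        exact inv_mul_cancel₀ h6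
      rw [← mul_assoc, ← mul_assoc, ← RCLike.ofReal_mul, ← RCLike.ofReal_mul, mul_assoc, h8]
    · by_cases hil : i = l
      · exact absurd (by rw [hil]) h1
      · rw [if_neg hil, sub_self]
        simp
    · by_cases hil : i = l
      · exact absurd (by rw [hil]) h2
      · rw [if_neg hil, sub_self]
        simp
  rw [e]
  exact ⟨V.smul_mem _ h5.1, by rw [Matrix.smul_mul, h5.2, smul_zero]⟩

theorem gram_apply (X : Matrix (Fin 3) (Fin n) K) (i j : Fin 3) :
    (X * Xᴴ) i j = X i ⬝ᵥ star (X j) := rfl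

/-- the square of the norm -/
noncomputable def nsq (v : Fin n → K) : ℝ := ∑ m, ‖v m‖ ^ 2

theorem dot_star_self (v : Fin n → K) : v ⬝ᵥ star v = ((nsq v : ℝ) : K) := by
  unfold nsq dotProduct
  rw [RCLike.ofReal_sum]
  refine Finset.sum_congr rfl fun m _ => ?_
  rw [Pi.star_apply, RCLike.star_def, RCLike.mul_conj]
  push_cast
  rfl

theorem nsq_eq_zero {v : Fin n → K} (h : nsq v = 0) : v = 0 := by
  unfold nsq at h
  rw [Finset.sum_eq_zero_iff_of_nonneg fun _ _ => sq_nonneg _] at h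
  funext m
  have h1 := h m (Finset.mem_univ m)
  exact norm_eq_zero.1 (pow_eq_zero_iff (two_ne_zero) |>.1 h1)

theorem row_eq_zero_of_gram {X : Matrix (Fin 3) (Fin n) K} {i : Fin 3} (h : (X * Xᴴ) i i = 0) :
    X i = 0 := by
  rw [gram_apply, dot_star_self] at h
  exact nsq_eq_zero (by exact_mod_cast h)

/-- A row of an element of `V` with zero columns gives a diagonal element. -/
theorem Tl.diag (hn : 3 ≤ n) (h : Lts V) {s : Fin 3 → ℝ} (hs : dg K n s ∈ V) {l : Fin 3}
    (hsl : s l ≠ 0) {X : Matrix (Fin 3) (Fin n) K} (hX : Tl V (di K (pr l) * X))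
    (hXl : X l ≠ 0) : dg K n (pr l) ∈ V := by
  have h1 := hX.prod h hX hs
  set c : ℝ := nsq (X l) with hc
  have hc1 : X l ⬝ᵥ star (X l) = (c : K) := dot_star_self _
  have hc0 : c ≠ 0 := fun h0 => hXl (nsq_eq_zero h0)
  have e : dg K n (pr l) = (c * s l)⁻¹ • (di K (pr l) * X * (di K (pr l) * X)ᴴ * dg K n s) := by
    rw [dg_eq (pr l), dg_eq s, ← Matrix.mul_assoc _ (di K s), ← Matrix.smul_mul]
    congr 1
    ext i j
    unfold di
    rw [Matrix.smul_apply, Matrix.mul_diagonal, RCLike.real_smul_eq_coe_mul, Matrix.diagonal_apply,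
      gram_apply]
    have h3 : ∀ r : Fin 3, (Matrix.diagonal (fun i => ((pr l i : ℝ) : K)) * X) r =
        fun m => ((pr l r : ℝ) : K) * X r m := by
      intro r
      funext m
      rw [diagonal_mul]
    rw [h3, h3]
    unfold pr
    by_cases hi : i = l
    · subst hi
      by_cases hj : i = j
      · subst hj
        have h4 : (c * s i)⁻¹ * (c * s i) = 1 := inv_mul_cancel₀ (mul_ne_zero hc0 hsl)
        rw [if_pos rfl]
        simp only [if_true, RCLike.ofReal_one, one_mul]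
        have h5 : (fun m => X i m) ⬝ᵥ star (fun m => X i m) = (c : K) := hc1
        rw [h5, ← RCLike.ofReal_mul, ← RCLike.ofReal_mul, h4, RCLike.ofReal_one]
      · rw [if_neg hj]
        have h6 : j ≠ i := fun h => hj h.symm
        simp [h6, dotProduct]
    · have h6 : ¬ (i = j ∧ i = l) := fun h => hi h.2
      simp [hi, dotProduct]
  rw [e]
  exact V.smul_mem _ h1

theorem cm_dg (hn : 3 ≤ n) (s t : Fin 3 → ℝ) : Cm (dg K n s) (dg K n t) := by
  refine ⟨?_, ?_⟩
  · rw [dg_mul_dg hn, dg_mul_dg hn]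
    congr 1
    funext i
    rw [mul_comm]
  · rw [dg_eq, dg_eq, conjTranspose_mul, conjTranspose_mul, di_star, di_star, Matrix.mul_assoc,
      ← Matrix.mul_assoc (di K s), di_mul_di, Matrix.mul_assoc, ← Matrix.mul_assoc (di K t),
      di_mul_di]
    congr 3
    funext i
    rw [mul_comm]

theorem dg_inj (hn : 3 ≤ n) {s t : Fin 3 → ℝ} (h : dg K n s = dg K n t) : s = t := by
  funext i
  have h1 := congrFun (congrFun h i) (co hn i)
  rw [dg_apply hn, dg_apply hn, if_pos rfl, if_pos rfl] at h1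
  exact_mod_cast h1

end Pool.Agent.Helper20.CK3
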