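import Pool.Agent.Helper20.CK3.Alg2

/-!
# CK3: the planes which are not coordinate planes
-/

set_option autoImplicit false

namespace Pool.Agent.Helper20.CK3

open Matrix Module

variable {K : Type} [RCLike K] {n : ℕ} {V : Submodule ℝ (Matrix (Fin 3) (Fin n) K)}
  {ν : Fin 3 → ℝ}

/-- The diagonal elements of `V` are maximal abelian. -/
structure Hyp (V : Submodule ℝ (Matrix (Fin 3) (Fin n) K)) (ν : Fin 3 → ℝ) : Prop where
  lts : Lts V
  mem : ∀ s : Fin 3 → ℝ, ∑ i, ν i * s i = 0 → dg K n s ∈ V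
  max : ∀ X ∈ V, (∀ s : Fin 3 → ℝ, ∑ i, ν i * s i = 0 → Cm X (dg K n s)) →
      ∃ s : Fin 3 → ℝ, ∑ i, ν i * s i = 0 ∧ X = dg K n s

theorem sum3 {i j k : Fin 3} (hij : i ≠ j) (hik : i ≠ k) (hjk : j ≠ k) (f : Fin 3 → ℝ) :
    ∑ l, f l = f i + f j + f k := by
  rw [Fin.sum_univ_three]
  fin_cases i <;> fin_cases j <;> fin_cases k <;>
    first
    | exact absurd rfl hij
    | exact absurd rfl hik
    | exact absurd rfl hjk
    | (simp only [Fin.zero_eta, Fin.mk_one, Fin.reduceFinMk]; done)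
    | (simp only [Fin.zero_eta, Fin.mk_one, Fin.reduceFinMk]; ring)

theorem cover3 {i j k : Fin 3} (hij : i ≠ j) (hik : i ≠ k) (hjk : j ≠ k) (l : Fin 3) :
    l = i ∨ l = j ∨ l = k := by
  fin_cases i <;> fin_cases j <;> fin_cases k <;> fin_cases l <;> simp_all

/-- If `ν l ≠ 0`, there is no element which is a multiple of `e l`. -/
theorem Hyp.no_pr (hn : 3 ≤ n) (h : Hyp V ν) {l : Fin 3} (hl : ν l ≠ 0)
    (hp : dg K n (pr l) ∈ V) : False := by
  obtain ⟨s, hs, e⟩ := h.max _ hp fun t _ => cm_dg hn _ _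
  have e1 := dg_inj hn e
  rw [← e1] at hs
  apply hl
  have h2 : ∑ i, ν i * pr l i = ν l := by
    unfold pr
    simp
  rw [← h2, hs]

/-- The row `l` vanishes if `ν l ≠ 0`. -/
theorem Hyp.row_zero (hn : 3 ≤ n) (h : Hyp V ν) {s : Fin 3 → ℝ} (hs : ∑ i, ν i * s i = 0)
    {l m k : Fin 3} (hlm : l ≠ m) (hlk : l ≠ k) (hmk : m ≠ k) (h1 : s l ^ 2 ≠ s m ^ 2)
    (h2 : s l ^ 2 ≠ s k ^ 2) (hl : ν l ≠ 0) (hm : ν m ≠ 0) {X : Matrix (Fin 3) (Fin n) K}
    (hX : Tl V X) : X l = 0 := by
  by_contra hXl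
  have h3 := Tl.row hn h.lts (h.mem s hs) (cover3 hlm hlk hmk) h1 h2 hX
  have h4 : ∑ i, ν i * (fun i => if i = l then ν m else if i = m then -ν l else 0) i = 0 := by
    rw [sum3 hlm hlk hmk]
    simp only [if_true, if_neg hlm.symm, if_neg hlk.symm, if_neg hmk.symm]
    ring
  refine h.no_pr hn hl (Tl.diag hn h.lts (h.mem _ h4) ?_ h3 hXl)
  simp only [if_true]
  exact hm

/-- the generic case -/
theorem Hyp.case_c (hn : 3 ≤ n) (h : Hyp V ν) {s : Fin 3 → ℝ} (hs : ∑ i, ν i * s i = 0)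
    {i j k : Fin 3} (hij : i ≠ j) (hik : i ≠ k) (hjk : j ≠ k) (h1 : s i ^ 2 ≠ s j ^ 2)
    (h2 : s i ^ 2 ≠ s k ^ 2) (h3 : s j ^ 2 ≠ s k ^ 2) (hi : ν i ≠ 0) (hj : ν j ≠ 0) :
    finrank ℝ V ≤ 9 * finrank ℝ K + n * finrank ℝ K := by
  rw [← finrank_row (K := K) (n := n)]
  refine dim_le_of_inj (rowL K n k) fun X hX h4 => ?_
  have h5 := h.row_zero hn hs hij hik hjk h1 h2 hi hj hX
  have h6 := h.row_zero hn hs hij.symm hjk hik h1.symm h3 hj hi hX
  ext r m
  rcases cover3 hij hik hjk r with rfl | rfl | rfl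
  · exact congrFun h5 m
  · exact congrFun h6 m
  · exact congrFun h4 m

/-- In the second case the rows `i`, `j` of an element of `V` with zero columns and zero row `k` are
orthogonal and have the same length. -/
theorem Hyp.gram (hn : 3 ≤ n) (h : Hyp V ν) {i j k : Fin 3} (hij : i ≠ j) (hik : i ≠ k)
    (hjk : j ≠ k) (hi : ν i ≠ 0) (hj : ν j ≠ 0) (hk : ν k = 0) (he : ν i ^ 2 = ν j ^ 2)
    {X : Matrix (Fin 3) (Fin n) K} (hX : Tl V X) (hXk : X k = 0) :
    (X * Xᴴ) i j = 0 ∧ (X * Xᴴ) i i = (X * Xᴴ) j j := by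
  set s1 : Fin 3 → ℝ := fun l => if l = i then ν j else if l = j then -ν i else 0 with hs1
  have e1i : s1 i = ν j := by rw [hs1]; simp
  have e1j : s1 j = -ν i := by rw [hs1]; simp [hij.symm]
  have e1k : s1 k = 0 := by rw [hs1]; simp [hik.symm, hjk.symm]
  have h4 : ∑ l, ν l * s1 l = 0 := by
    rw [sum3 hij hik hjk, e1i, e1j, e1k]
    ring
  set G := X * Xᴴ with hG
  have hGH : Gᴴ = G := by rw [hG, conjTranspose_mul, conjTranspose_conjTranspose]
  have hG1 : ∀ r, G k r = 0 := by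
    intro r
    rw [hG, Matrix.mul_apply]
    refine Finset.sum_eq_zero fun m _ => ?_
    rw [hXk, Pi.zero_apply, zero_mul]
  have hG2 : ∀ r, G r k = 0 := by
    intro r
    rw [hG, Matrix.mul_apply]
    refine Finset.sum_eq_zero fun m _ => ?_
    rw [conjTranspose_apply, hXk, Pi.zero_apply, star_zero, mul_zero]
  have h5 : G * dg K n s1 ∈ V := hX.prod h.lts hX (h.mem s1 h4)
  clear_value G
  have hcm : ∀ t : Fin 3 → ℝ, ∑ l, ν l * t l = 0 → Cm (G * dg K n s1) (dg K n t) := by
    intro t ht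
    rw [sum3 hij hik hjk, hk, zero_mul, add_zero] at ht
    -- the two relations
    have r1 : s1 i * t i = s1 j * t j := by
      rw [e1i, e1j]
      have h6 : ν i * (ν j * t i - -ν i * t j) = 0 := by linear_combination ν j * ht + t j * he
      have h7 := (mul_eq_zero.1 h6).resolve_left hi
      linarith
    have r2 : s1 i * t j = t i * s1 j := by
      rw [e1i, e1j]
      linear_combination ht
    refine ⟨?_, ?_⟩
    · rw [Matrix.mul_assoc, dg_mul_dg hn, conjTranspose_mul, hGH, ← Matrix.mul_assoc, dg_mul_dg hn]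
      ext a b
      unfold di
      rw [Matrix.mul_diagonal, Matrix.diagonal_mul]
      have r3 : ((s1 i : ℝ) : K) * ((t i : ℝ) : K) = ((s1 j : ℝ) : K) * ((t j : ℝ) : K) := by
        exact_mod_cast r1
      push_cast
      rcases cover3 hij hik hjk a with rfl | rfl | rfl
      · rcases cover3 hij hik hjk b with rfl | rfl | rfl
        · ring
        · linear_combination -(G a b) * r3
        · rw [hG2, zero_mul, mul_zero]
      · rcases cover3 hij hik hjk b with rfl | rfl | rfl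
        · linear_combination (G a b) * r3
        · ring
        · rw [hG2, zero_mul, mul_zero]
      · rw [hG1, zero_mul, mul_zero]
    · rw [dg_eq s1, dg_eq t, conjTranspose_mul, conjTranspose_mul, conjTranspose_mul, di_star,
        di_star, hGH]
      have e2 : di K s1 * G * di K t = di K t * G * di K s1 := by
        ext a b
        unfold di
        rw [Matrix.mul_diagonal, Matrix.diagonal_mul, Matrix.mul_diagonal, Matrix.diagonal_mul]
        rcases cover3 hij hik hjk a with rfl | rfl | rfl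
        · rcases cover3 hij hik hjk b with rfl | rfl | rfl
          · ring
          · have r3 : ((s1 a : ℝ) : K) * ((t b : ℝ) : K) = ((t a : ℝ) : K) * ((s1 b : ℝ) : K) := by
              exact_mod_cast r2
            linear_combination (G a b) * r3
          · rw [hG2]; ring
        · rcases cover3 hij hik hjk b with rfl | rfl | rfl
          · have r3 : ((s1 b : ℝ) : K) * ((t a : ℝ) : K) = ((t b : ℝ) : K) * ((s1 a : ℝ) : K) := by
              exact_mod_cast r2
            linear_combination -(G a b) * r3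
          · ring
          · rw [hG2]; ring
        · rw [hG1]; ring
      calc (J K n)ᴴ * di K s1 * G * (di K t * J K n) = (J K n)ᴴ * (di K s1 * G * di K t) * J K n := by
            simp only [Matrix.mul_assoc]
        _ = (J K n)ᴴ * (di K t * G * di K s1) * J K n := by rw [e2]
        _ = _ := by simp only [Matrix.mul_assoc]
  obtain ⟨t, ht, e⟩ := h.max _ h5 hcm
  have e3 : G * di K s1 = di K t := by
    have h6 : G * dg K n s1 * (J K n)ᴴ = dg K n t * (J K n)ᴴ := by rw [e]
    rwa [dg_eq s1, dg_eq t, Matrix.mul_assoc, Matrix.mul_assoc, J_mul_J hn, Matrix.mul_one,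
      Matrix.mul_assoc, J_mul_J hn, Matrix.mul_one] at h6
  have e4 : ∀ a b, G a b * ((s1 b : ℝ) : K) = if a = b then ((t a : ℝ) : K) else 0 := by
    intro a b
    have h6 := congrFun (congrFun e3 a) b
    unfold di at h6
    rwa [Matrix.mul_diagonal, Matrix.diagonal_apply] at h6
  have h6 := e4 i j
  rw [if_neg hij, e1j] at h6
  have hi' : ((-ν i : ℝ) : K) ≠ 0 := by exact_mod_cast neg_ne_zero.2 hi
  refine ⟨(mul_eq_zero.1 h6).resolve_right hi', ?_⟩
  have h7 := e4 i i
  have h8 := e4 j j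
  rw [if_pos rfl, e1i] at h7
  rw [if_pos rfl, e1j] at h8
  rw [sum3 hij hik hjk, hk, zero_mul, add_zero] at ht
  have ht' : ((ν i : ℝ) : K) * ((t i : ℝ) : K) + ((ν j : ℝ) : K) * ((t j : ℝ) : K) = 0 := by
    exact_mod_cast ht
  rw [← h7, ← h8] at ht'
  have hij' : ((ν i : ℝ) : K) * ((ν j : ℝ) : K) ≠ 0 := by
    exact_mod_cast mul_ne_zero hi hj
  push_cast at ht'
  have h9 : ((ν i : ℝ) : K) * ((ν j : ℝ) : K) * (G i i - G j j) = 0 := by
    linear_combination ht'
  exact sub_eq_zero.1 ((mul_eq_zero.1 h9).resolve_left hij')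

end Pool.Agent.Helper20.CK3
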