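import Pool.Agent.Helper20.CK3.Alg3

/-!
# CK3: the planes which are not coordinate planes, dimensions
-/

set_option autoImplicit false

namespace Pool.Agent.Helper20.CK3

open Matrix Module

variable {K : Type} [RCLike K] {n : ℕ} {V : Submodule ℝ (Matrix (Fin 3) (Fin n) K)}
  {ν : Fin 3 → ℝ}

theorem pr_mul_apply (l : Fin 3) (X : Matrix (Fin 3) (Fin n) K) (i : Fin 3) :
    (di K (pr l) * X) i = if i = l then X i else 0 := by
  funext j
  rw [di_mul_apply]
  unfold pr
  by_cases h : i = l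
  · rw [if_pos h, if_pos h]
    simp
  · rw [if_neg h, if_neg h]
    simp

theorem tl_of {X Z : Matrix (Fin 3) (Fin n) K} (hX : Tl V X) (hZ : Tl V Z) : Tl V (X - Z) :=
  ⟨V.sub_mem hX.1 hZ.1, by rw [Matrix.sub_mul, hX.2, hZ.2, sub_zero]⟩

theorem Tl.smul {X : Matrix (Fin 3) (Fin n) K} (hX : Tl V X) (c : ℝ) : Tl V (c • X) :=
  ⟨V.smul_mem c hX.1, by rw [Matrix.smul_mul, hX.2, smul_zero]⟩

/-- second case: the row `k` -/
theorem Hyp.row_k (hn : 3 ≤ n) (h : Hyp V ν) {k : Fin 3} (hk : ν k = 0)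
    {X : Matrix (Fin 3) (Fin n) K} (hX : Tl V X) : Tl V (di K (pr k) * X) := by
  have h1 : ∑ l, ν l * pr k l = 0 := by
    unfold pr
    simp [hk]
  have h2 := hX.scale hn h.lts (h.mem _ h1) (h.mem _ h1)
  have e : (fun i => pr k i * pr k i) = pr k := by
    funext i
    unfold pr
    split_ifs <;> ring
  rwa [e] at h2

/-- second case: the product of three elements -/
theorem Hyp.prod3 (hn : 3 ≤ n) (h : Hyp V ν) {k : Fin 3} (hk : ν k = 0)
    {X Z : Matrix (Fin 3) (Fin n) K} (hX : Tl V X) (hZ : Tl V Z)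
    (hXk : di K (pr k) * X = 0) (hZk : di K (pr k) * Z = Z) : Tl V (X * Zᴴ * Z) := by
  have h1 : ∑ l, ν l * pr k l = 0 := by
    unfold pr
    simp [hk]
  have hD := h.mem _ h1
  have hE : X * Zᴴ * dg K n (pr k) ∈ V := hX.prod h.lts hZ hD
  have h2 := h.lts.tri hE hD hZ.1
  have hsq : (fun i => pr k i * pr k i) = pr k := by
    funext i
    unfold pr
    split_ifs <;> ring
  have hZk' : Zᴴ * di K (pr k) = Zᴴ := by
    have := congrArg conjTranspose hZk
    rwa [conjTranspose_mul, di_star] at this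
  have hXk' : Xᴴ * di K (pr k) = 0 := by
    have := congrArg conjTranspose hXk
    rwa [conjTranspose_mul, di_star, conjTranspose_zero] at this
  have e1 : X * Zᴴ * dg K n (pr k) * (dg K n (pr k))ᴴ = X * Zᴴ := by
    rw [Matrix.mul_assoc, dg_mul_dg hn, hsq, Matrix.mul_assoc, hZk']
  have e2 : Z * (dg K n (pr k))ᴴ = 0 := tl_dg hZ.2 _
  have e3 : dg K n (pr k) * (X * Zᴴ * dg K n (pr k))ᴴ = Z * Xᴴ := by
    have h3 := congrArg conjTranspose e1
    rw [conjTranspose_mul (X * Zᴴ * dg K n (pr k)), conjTranspose_conjTranspose] at h3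
    rw [h3, conjTranspose_mul, conjTranspose_conjTranspose]
  have e4 : Z * (X * Zᴴ * dg K n (pr k))ᴴ = 0 := by
    rw [conjTranspose_mul, ← Matrix.mul_assoc, e2, Matrix.zero_mul]
  have e5 : Z * Xᴴ * Z = 0 := by
    calc Z * Xᴴ * Z = Z * Xᴴ * (di K (pr k) * Z) := by rw [hZk]
      _ = Z * (Xᴴ * di K (pr k)) * Z := by simp only [Matrix.mul_assoc]
      _ = 0 := by rw [hXk', Matrix.mul_zero, Matrix.zero_mul]
  rw [e1, e2, e3, e4, e5, Matrix.zero_mul, Matrix.zero_mul, add_zero, sub_zero, sub_zero] at h2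
  exact ⟨h2, by rw [Matrix.mul_assoc, hZ.2, Matrix.mul_zero]⟩

/-- second case: the row `k` of `Z` is orthogonal to the row `i` of `X` -/
theorem Hyp.orth (hn : 3 ≤ n) (h : Hyp V ν) {i j k : Fin 3} (hij : i ≠ j) (hik : i ≠ k)
    (hjk : j ≠ k) (hi : ν i ≠ 0) (hj : ν j ≠ 0) (hk : ν k = 0) (he : ν i ^ 2 = ν j ^ 2)
    {X Z : Matrix (Fin 3) (Fin n) K} (hX : Tl V X) (hZ : Tl V Z) (hXk : X k = 0)
    (hZi : Z i = 0) (hZj : Z j = 0) : (X * Zᴴ) i k = 0 := by
  by_cases hZ0 : Z k = 0
  · rw [Matrix.mul_apply]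
    refine Finset.sum_eq_zero fun m _ => ?_
    rw [conjTranspose_apply, hZ0, Pi.zero_apply, star_zero, mul_zero]
  have hXk' : di K (pr k) * X = 0 := by
    ext r m
    rw [pr_mul_apply]
    by_cases hr : r = k
    · rw [if_pos hr, hr, hXk]
      rfl
    · rw [if_neg hr]
      rfl
  have hZk' : di K (pr k) * Z = Z := by
    ext r m
    rw [pr_mul_apply]
    by_cases hr : r = k
    · rw [if_pos hr]
    · rw [if_neg hr]
      rcases cover3 hij hik hjk r with rfl | rfl | rfl
      · rw [hZi]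
      · rw [hZj]
      · exact absurd rfl hr
  have h1 := h.prod3 hn hk hX hZ hXk' hZk'
  -- the rows of `X Zᴴ Z`
  have h2 : ∀ r, (X * Zᴴ * Z) r = fun m => (X * Zᴴ) r k * Z k m := by
    intro r
    funext m
    rw [Matrix.mul_apply, Finset.sum_eq_single k]
    · intro l _ hl
      have : Z l = 0 := by
        rcases cover3 hij hik hjk l with rfl | rfl | rfl
        · exact hZi
        · exact hZj
        · exact absurd rfl hl
      rw [this, Pi.zero_apply, mul_zero]
    · intro hcon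
      exact absurd (Finset.mem_univ _) hcon
  have h3 : (X * Zᴴ * Z) k = 0 := by
    rw [h2]
    funext m
    have : (X * Zᴴ) k k = 0 := by
      rw [Matrix.mul_apply]
      refine Finset.sum_eq_zero fun m _ => ?_
      rw [hXk, Pi.zero_apply, zero_mul]
    rw [this, zero_mul]
    rfl
  obtain ⟨h4, h5⟩ := h.gram hn hij hik hjk hi hj hk he h1 h3
  have h6 : ∀ a b, (X * Zᴴ * Z * (X * Zᴴ * Z)ᴴ) a b =
      (X * Zᴴ) a k * star ((X * Zᴴ) b k) * ((nsq (Z k) : ℝ) : K) := by
    intro a b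
    rw [gram_apply, h2, h2, ← dot_star_self]
    unfold dotProduct
    rw [Finset.mul_sum]
    refine Finset.sum_congr rfl fun m _ => ?_
    rw [Pi.star_apply, Pi.star_apply, star_mul']
    ring
  rw [h6] at h4
  rw [h6, h6] at h5
  have h7 : ((nsq (Z k) : ℝ) : K) ≠ 0 := by
    intro h0
    exact hZ0 (nsq_eq_zero (by exact_mod_cast h0))
  have h8 := (mul_eq_zero.1 h4).resolve_right h7
  have h9 := mul_right_cancel₀ h7 h5
  rcases mul_eq_zero.1 h8 with h10 | h10
  · exact h10
  · rw [h10, mul_zero] at h9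
    rcases mul_eq_zero.1 h9 with h11 | h11
    · exact h11
    · exact star_eq_zero.1 h11

/-- the second case -/
theorem Hyp.case_b (hn : 3 ≤ n) (h : Hyp V ν) {i j k : Fin 3} (hij : i ≠ j) (hik : i ≠ k)
    (hjk : j ≠ k) (hi : ν i ≠ 0) (hj : ν j ≠ 0) (hk : ν k = 0) (he : ν i ^ 2 = ν j ^ 2) :
    finrank ℝ V ≤ 9 * finrank ℝ K + n * finrank ℝ K := by
  rw [← finrank_row (K := K) (n := n)]
  refine dim_le_of_inj (rowL K n i + rowL K n k) fun X hX h4 => ?_
  have h5 : X k = -X i := by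
    have h6 : X i + X k = 0 := h4
    exact (neg_eq_of_add_eq_zero_right h6).symm
  have hZ := h.row_k hn hk hX
  have hY := tl_of hX hZ
  have hYk : (X - di K (pr k) * X) k = 0 := by
    show X k - (di K (pr k) * X) k = 0
    rw [pr_mul_apply, if_pos rfl, sub_self]
  have hZi : (di K (pr k) * X) i = 0 := by rw [pr_mul_apply, if_neg hik]
  have hZj : (di K (pr k) * X) j = 0 := by rw [pr_mul_apply, if_neg hjk]
  have h6 := h.orth hn hij hik hjk hi hj hk he hY hZ hYk hZi hZj
  have h7 : ((X - di K (pr k) * X) * (di K (pr k) * X)ᴴ) i k = -((nsq (X i) : ℝ) : K) := by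
    have e1 : (X - di K (pr k) * X) i = X i := by
      show X i - (di K (pr k) * X) i = X i
      rw [hZi, sub_zero]
    have e2 : (di K (pr k) * X) k = -X i := by rw [pr_mul_apply, if_pos rfl, h5]
    show (X - di K (pr k) * X) i ⬝ᵥ star ((di K (pr k) * X) k) = _
    rw [e1, e2, star_neg, dotProduct_neg, dot_star_self]
  rw [h7, neg_eq_zero] at h6
  have hXi : X i = 0 := nsq_eq_zero (by exact_mod_cast h6)
  have hXk : X k = 0 := by rw [h5, hXi, neg_zero]
  obtain ⟨-, h8⟩ := h.gram hn hij hik hjk hi hj hk he hX hXk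
  have h9 : (X * Xᴴ) i i = 0 := by
    rw [gram_apply, hXi, zero_dotProduct]
  rw [h9] at h8
  have hXj := row_eq_zero_of_gram h8.symm
  ext r m
  rcases cover3 hij hik hjk r with rfl | rfl | rfl
  · exact congrFun hXi m
  · exact congrFun hXj m
  · exact congrFun hXk m

/-- a generic vector of the plane -/
theorem exists_generic {i j k : Fin 3} (hij : i ≠ j) (hik : i ≠ k) (hjk : j ≠ k)
    (hi : ν i ≠ 0) (hj : ν j ≠ 0) (hb : ¬ (ν k = 0 ∧ ν i ^ 2 = ν j ^ 2)) :
    ∃ s : Fin 3 → ℝ, ∑ l, ν l * s l = 0 ∧ s i ^ 2 ≠ s j ^ 2 ∧ s i ^ 2 ≠ s k ^ 2 ∧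
      s j ^ 2 ≠ s k ^ 2 := by
  -- `s i = t`, `s k = 1`, `s j = -(ν i t + ν k) / ν j`
  have h1 : ∃ t : ℝ, ((ν i * t + ν k) ^ 2 - ν j ^ 2 * t ^ 2) * (t ^ 2 - 1) *
      ((ν i * t + ν k) ^ 2 - ν j ^ 2) ≠ 0 := by
    by_contra hcon
    push Not at hcon
    let P : Polynomial ℝ := ((Polynomial.C (ν i) * Polynomial.X + Polynomial.C (ν k)) ^ 2 -
      Polynomial.C (ν j ^ 2) * Polynomial.X ^ 2) * (Polynomial.X ^ 2 - 1) *
      ((Polynomial.C (ν i) * Polynomial.X + Polynomial.C (ν k)) ^ 2 - Polynomial.C (ν j ^ 2))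
    have hP : P = 0 := by
      refine Polynomial.funext fun t => ?_
      have := hcon t
      simp only [P, Polynomial.eval_mul, Polynomial.eval_sub, Polynomial.eval_pow,
        Polynomial.eval_add, Polynomial.eval_C, Polynomial.eval_X, Polynomial.eval_one,
        Polynomial.eval_zero]
      exact this
    have h2 : ∀ Q : Polynomial ℝ, (∃ t, Q.eval t ≠ 0) → Q ≠ 0 := by
      rintro Q ⟨t, ht⟩ rfl
      exact ht Polynomial.eval_zero
    refine absurd hP (mul_ne_zero (mul_ne_zero (h2 _ ?_) (h2 _ ?_)) (h2 _ ?_))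
    · by_cases hk : ν k = 0
      · refine ⟨1, ?_⟩
        have h3 : ν i ^ 2 ≠ ν j ^ 2 := fun h => hb ⟨hk, h⟩
        simp only [Polynomial.eval_sub, Polynomial.eval_pow, Polynomial.eval_mul,
          Polynomial.eval_add, Polynomial.eval_C, Polynomial.eval_X, hk]
        intro h4
        apply h3
        linarith
      · refine ⟨0, ?_⟩
        simp only [Polynomial.eval_sub, Polynomial.eval_pow, Polynomial.eval_mul,
          Polynomial.eval_add, Polynomial.eval_C, Polynomial.eval_X]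
        intro h4
        apply hk
        have h5 : ν k ^ 2 = 0 := by linarith
        exact pow_eq_zero_iff (two_ne_zero) |>.1 h5
    · refine ⟨0, ?_⟩
      simp
    · refine ⟨(2 * ν j - ν k) / ν i, ?_⟩
      simp only [Polynomial.eval_sub, Polynomial.eval_pow, Polynomial.eval_mul,
        Polynomial.eval_add, Polynomial.eval_C, Polynomial.eval_X]
      rw [mul_div_cancel₀ _ hi]
      intro h4
      apply hj
      have h5 : ν j ^ 2 = 0 := by linarith
      exact pow_eq_zero_iff (two_ne_zero) |>.1 h5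
  obtain ⟨t, ht⟩ := h1
  have ht3 := right_ne_zero_of_mul ht
  have ht1 := left_ne_zero_of_mul (left_ne_zero_of_mul ht)
  have ht2 := right_ne_zero_of_mul (left_ne_zero_of_mul ht)
  refine ⟨fun l => if l = i then t else if l = j then -(ν i * t + ν k) / ν j else 1, ?_, ?_, ?_,
    ?_⟩
  · rw [sum3 hij hik hjk]
    simp only [if_true, if_neg hij.symm, if_neg hik.symm, if_neg hjk.symm]
    field_simp
    ring
  · simp only [if_true, if_neg hij.symm]
    intro h4
    apply ht1
    rw [div_pow, eq_div_iff (pow_ne_zero 2 hj)] at h4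
    linarith
  · simp only [if_true, if_neg hik.symm, if_neg hjk.symm]
    intro h4
    apply ht2
    linarith
  · simp only [if_true, if_neg hij.symm, if_neg hik.symm, if_neg hjk.symm]
    intro h4
    apply ht3
    rw [div_pow, div_eq_iff (pow_ne_zero 2 hj)] at h4
    linarith

end Pool.Agent.Helper20.CK3
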