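import Pool.Agent.Helper20.CK3.Alg4

/-!
# CK3: the coordinate planes
-/

set_option autoImplicit false

namespace Pool.Agent.Helper20.CK3

open Matrix Module

variable {K : Type} [RCLike K] {n : ℕ} {V : Submodule ℝ (Matrix (Fin 3) (Fin n) K)}
  {ν : Fin 3 → ℝ}

theorem mul_E (hn : 3 ≤ n) (B : Matrix (Fin 3) (Fin n) K) (l r m : Fin 3) :
    (B * (dg K n (pr l))ᴴ) r m = if m = l then B r (co hn l) else 0 := by
  rw [dg_eq, conjTranspose_mul, di_star, ← Matrix.mul_assoc]
  unfold di
  rw [Matrix.mul_diagonal, mul_J hn]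
  unfold pr
  by_cases h : m = l
  · rw [if_pos h, if_pos h, h]
    simp
  · rw [if_neg h, if_neg h]
    simp

theorem E_mul (hn : 3 ≤ n) (B : Matrix (Fin 3) (Fin n) K) (l r m : Fin 3) :
    (dg K n (pr l) * Bᴴ) r m = if r = l then star (B m (co hn l)) else 0 := by
  have h1 : dg K n (pr l) * Bᴴ = (B * (dg K n (pr l))ᴴ)ᴴ := by
    rw [conjTranspose_mul, conjTranspose_conjTranspose]
  rw [h1, conjTranspose_apply, mul_E hn]
  by_cases h : r = l
  · rw [if_pos h, if_pos h]
  · rw [if_neg h, if_neg h, star_zero]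

theorem mul_E' (hn : 3 ≤ n) (M : Matrix (Fin 3) (Fin 3) K) (l r : Fin 3) (c : Fin n) :
    (M * dg K n (pr l)) r c = if c = co hn l then M r l else 0 := by
  rw [Matrix.mul_apply, Finset.sum_eq_single l]
  · rw [dg_apply hn]
    unfold pr
    by_cases h : c = co hn l
    · rw [if_pos h, if_pos h]
      simp
    · rw [if_neg h, if_neg h, mul_zero]
  · intro m _ hm
    rw [dg_apply hn]
    unfold pr
    rw [if_neg hm]
    simp
  · intro h
    exact absurd (Finset.mem_univ _) h

theorem pr_sq (l : Fin 3) : (fun i => pr l i * pr l i) = pr l := by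
  funext i
  unfold pr
  split_ifs <;> ring

/-- `[[B, E], E]` for `E = E l l` -/
noncomputable def TT (hn : 3 ≤ n) (l : Fin 3) (B : Matrix (Fin 3) (Fin n) K) :
    Matrix (Fin 3) (Fin n) K :=
  Matrix.of fun r c => (if c = co hn l then B r c else 0) + (if r = l then B r c else 0) -
    2 * (if r = l ∧ c = co hn l then star (B r c) else 0)

theorem TT_apply (hn : 3 ≤ n) (l : Fin 3) (B : Matrix (Fin 3) (Fin n) K) (r : Fin 3) (c : Fin n) :
    TT hn l B r c = (if c = co hn l then B r c else 0) + (if r = l then B r c else 0) -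
    2 * (if r = l ∧ c = co hn l then star (B r c) else 0) := rfl

theorem TT_mem (hn : 3 ≤ n) (h : Lts V) {l : Fin 3} (hl : dg K n (pr l) ∈ V)
    {B : Matrix (Fin 3) (Fin n) K} (hB : B ∈ V) : TT hn l B ∈ V := by
  have h1 := h.tri hB hl hl
  have e : B * (dg K n (pr l))ᴴ * dg K n (pr l) + dg K n (pr l) * (dg K n (pr l))ᴴ * B -
      dg K n (pr l) * Bᴴ * dg K n (pr l) - dg K n (pr l) * Bᴴ * dg K n (pr l) = TT hn l B := by
    ext r c
    rw [Matrix.sub_apply, Matrix.sub_apply, Matrix.add_apply, mul_E' hn, mul_E' hn, mul_E hn,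
      E_mul hn, dg_mul_dg hn, pr_sq, pr_mul_apply, TT_apply, if_pos rfl]
    by_cases hr : r = l
    · by_cases hc : c = co hn l
      · rw [if_pos hc, if_pos hc, if_pos hc, if_pos hr, if_pos hr, if_pos hr, if_pos ⟨hr, hc⟩, hc,
          hr]
        ring
      · rw [if_neg hc, if_neg hc, if_neg hc, if_pos hr, if_pos hr,
          if_neg (fun h => hc h.2)]
        ring
    · by_cases hc : c = co hn l
      · rw [if_pos hc, if_pos hc, if_pos hc, if_neg hr, if_neg hr, if_neg hr,
          if_neg (fun h => hr h.1), hc, Pi.zero_apply]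
        ring
      · rw [if_neg hc, if_neg hc, if_neg hc, if_neg hr, if_neg hr, if_neg (fun h => hc h.2),
          Pi.zero_apply]
        ring
  rwa [e] at h1

section Coord

variable (hn : 3 ≤ n) (h : Hyp V ν) {i j k : Fin 3} (hij : i ≠ j) (hik : i ≠ k) (hjk : j ≠ k)
  (hi : ν i = 0) (hj : ν j = 0)
include hn h hij hik hjk hi hj

theorem coord_mem {s : Fin 3 → ℝ} (hs : s k = 0) : dg K n s ∈ V := by
  refine h.mem s ?_
  rw [sum3 hij hik hjk, hi, hj, hs]
  ring

theorem coord_E : dg K n (pr i) ∈ V :=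
  coord_mem hn h hij hik hjk hi hj (by unfold pr; rw [if_neg hik.symm])

theorem coord_row {X : Matrix (Fin 3) (Fin n) K} (hX : Tl V X) (l : Fin 3) :
    Tl V (di K (pr l) * X) := by
  obtain ⟨s, e1, e2, e3⟩ : ∃ s : Fin 3 → ℝ, s i = 1 ∧ s j = 2 ∧ s k = 0 :=
    ⟨fun l => if l = i then 1 else if l = j then 2 else 0, by simp, by simp [hij.symm],
      by simp [hik.symm, hjk.symm]⟩
  have hs := coord_mem hn h hij hik hjk hi hj e3
  rcases cover3 hij hik hjk l with rfl | rfl | rfl
  · refine Tl.row hn h.lts hs (m := j) (m' := k) (cover3 hij hik hjk) ?_ ?_ hX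
    · rw [e1, e2]; norm_num
    · rw [e1, e3]; norm_num
  · refine Tl.row hn h.lts hs (m := i) (m' := k) (fun r => ?_) ?_ ?_ hX
    · rcases cover3 hij hik hjk r with h | h | h
      · exact Or.inr (Or.inl h)
      · exact Or.inl h
      · exact Or.inr (Or.inr h)
    · rw [e1, e2]; norm_num
    · rw [e2, e3]; norm_num
  · refine Tl.row hn h.lts hs (m := i) (m' := j) (fun r => ?_) ?_ ?_ hX
    · rcases cover3 hij hik hjk r with h | h | h
      · exact Or.inr (Or.inl h)
      · exact Or.inr (Or.inr h)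
      · exact Or.inl h
    · rw [e1, e3]; norm_num
    · rw [e2, e3]; norm_num

/-- the row `k` of the elements with zero columns -/
theorem coord_zero (hk : ν k ≠ 0) {X : Matrix (Fin 3) (Fin n) K} (hX : Tl V X) : X k = 0 := by
  have hZ := coord_row hn h hij hik hjk hi hj hX k
  have hZk : di K (pr k) * (di K (pr k) * X) = di K (pr k) * X := by
    rw [← Matrix.mul_assoc, di_mul_di, pr_sq]
  have hZk' : (di K (pr k) * X)ᴴ * di K (pr k) = (di K (pr k) * X)ᴴ := by
    have := congrArg conjTranspose hZk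
    rwa [conjTranspose_mul, di_star] at this
  obtain ⟨s, hs, e⟩ := h.max _ hZ.1 fun s hs => by
    have hsk : s k = 0 := by
      rw [sum3 hij hik hjk, hi, hj, zero_mul, zero_mul, zero_add, zero_add] at hs
      exact (mul_eq_zero.1 hs).resolve_left hk
    have e1 : (fun i => pr k i * s i) = fun _ => 0 := by
      funext l
      unfold pr
      by_cases hl : l = k
      · rw [hl, hsk, mul_zero]
      · rw [if_neg hl, zero_mul]
    have e2 : (di K (pr k) * X)ᴴ * dg K n s = 0 := by
      rw [dg_eq, ← Matrix.mul_assoc, ← hZk', Matrix.mul_assoc _ _ (di K s), di_mul_di, e1]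
      unfold di
      simp
    refine ⟨by rw [tl_dg hZ.2, tl_dg' hZ.2], ?_⟩
    have e3 : (dg K n s)ᴴ * (di K (pr k) * X) = ((di K (pr k) * X)ᴴ * dg K n s)ᴴ := by
      rw [conjTranspose_mul, conjTranspose_conjTranspose]
    rw [e3, e2, conjTranspose_zero]
  have e1 := hZ.2
  rw [e] at e1
  have e2 : (di K (pr k) * X) k = 0 := by
    rw [e]
    funext c
    rw [dg_apply hn]
    have e3 := congrFun (congrFun e1 k) k
    rw [mul_J hn, dg_apply hn, if_pos rfl] at e3
    have e4 : ((s k : ℝ) : K) = 0 := e3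
    rw [e4]
    simp
  rw [pr_mul_apply, if_pos rfl] at e2
  exact e2

theorem exists_row (hk : ν k ≠ 0) (hn' : 11 ≤ n) (hdim : 2 * (n * finrank ℝ K) ≤ finrank ℝ V)
    (Y : Matrix (Fin 3) (Fin n) K) : ∃ Z, Tl V Z ∧ Z j = 0 ∧ Z k = 0 ∧ Z i ≠ 0 ∧
      (Y * Zᴴ) i i = 0 := by
  by_contra hcon
  push Not at hcon
  let g2 : Matrix (Fin 3) (Fin n) K →ₗ[ℝ] K :=
    { toFun := fun X => (Y * Xᴴ) i i
      map_add' := fun X X' => by rw [conjTranspose_add, Matrix.mul_add, Matrix.add_apply]
      map_smul' := fun c X => by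
        rw [conjTranspose_smul, Matrix.mul_smul, Matrix.smul_apply, star_trivial]
        rfl }
  have h1 := dim_le_of_inj (V := V) ((rowL K n j).prod g2) fun X hX h2 => by
    have h3 : X j = 0 := congrArg Prod.fst h2
    have h4 : (Y * Xᴴ) i i = 0 := congrArg Prod.snd h2
    have h5 := coord_zero hn h hij hik hjk hi hj hk hX
    by_contra hX0
    refine hcon X hX h3 h5 ?_ h4
    intro h6
    apply hX0
    ext r c
    rcases cover3 hij hik hjk r with rfl | rfl | rfl
    · exact congrFun h6 c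
    · exact congrFun h3 c
    · exact congrFun h5 c
  rw [finrank_prod, finrank_row] at h1
  have h2 : 0 < finrank ℝ K := Module.finrank_pos
  have h3 : 2 * (n * finrank ℝ K) ≤ 9 * finrank ℝ K + (n * finrank ℝ K + finrank ℝ K) :=
    hdim.trans h1
  have h4 : 11 * finrank ℝ K ≤ n * finrank ℝ K := Nat.mul_le_mul_right _ hn'
  omega

/-- the entry `(k, i)` -/
theorem coord_entry (hk : ν k ≠ 0) (hn' : 11 ≤ n)
    (hdim : 2 * (n * finrank ℝ K) ≤ finrank ℝ V) {B : Matrix (Fin 3) (Fin n) K} (hB : B ∈ V) :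
    B k (co hn i) = 0 := by
  have hEi := coord_E hn h hij hik hjk hi hj
  have hEj := coord_E hn h hij.symm hjk hik hj hi
  have hcij : co hn j ≠ co hn i := fun h => hij ((co_inj hn).1 h).symm
  set A := TT hn i B with hA
  have hAV : A ∈ V := TT_mem hn h.lts hEi hB
  set Y := A - TT hn j A with hY
  have hYV : Y ∈ V := V.sub_mem hAV (TT_mem hn h.lts hEj hAV)
  have hAj : ∀ c, A j c = if c = co hn i then B j c else 0 := by
    intro c
    rw [hA, TT_apply, if_neg (show ¬ (j = i ∧ c = co hn i) from fun h' => hij h'.1.symm),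
      if_neg (show ¬ (j = i) from hij.symm), mul_zero, sub_zero, add_zero]
  have hAk : ∀ c, A k c = if c = co hn i then B k c else 0 := by
    intro c
    rw [hA, TT_apply, if_neg (show ¬ (k = i ∧ c = co hn i) from fun h' => hik h'.1.symm),
      if_neg (show ¬ (k = i) from hik.symm), mul_zero, sub_zero, add_zero]
  have hYj : ∀ c, Y j c = 0 := by
    intro c
    rw [hY, Matrix.sub_apply, TT_apply, if_pos (show j = j from rfl), hAj]
    by_cases hc : c = co hn j
    · have hc' : c ≠ co hn i := fun h => hcij (hc.symm.trans h)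
      rw [if_neg hc']
      simp
    · rw [if_neg (show ¬ (c = co hn j) from hc),
        if_neg (show ¬ (j = j ∧ c = co hn j) from fun h' => hc h'.2)]
      ring
  have hYk : ∀ c, Y k c = if c = co hn i then B k c else 0 := by
    intro c
    rw [hY, Matrix.sub_apply, TT_apply, if_neg (show ¬ (k = j) from hjk.symm),
      if_neg (show ¬ (k = j ∧ c = co hn j) from fun h' => hjk h'.1.symm), hAk]
    by_cases hc : c = co hn j
    · have hc' : c ≠ co hn i := fun h => hcij (hc.symm.trans h)
      rw [if_neg hc']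
      simp
    · rw [if_neg (show ¬ (c = co hn j) from hc)]
      ring
  clear_value Y A
  obtain ⟨Z, hZ, hZj, hZk, hZi, hYZ⟩ := exists_row hn h hij hik hjk hi hj hk hn' hdim Y
  have hZc : ∀ r l, Z r (co hn l) = 0 := by
    intro r l
    have := congrFun (congrFun hZ.2 r) l
    rwa [mul_J hn] at this
  have hZm : ∀ m, m ≠ i → Z m = 0 := by
    intro m hm
    rcases cover3 hij hik hjk m with rfl | rfl | rfl
    · exact absurd rfl hm
    · exact hZj
    · exact hZk
  have e1 : Y * Zᴴ = 0 := by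
    ext r m
    by_cases hm : m = i
    · subst hm
      rcases cover3 hij hik hjk r with rfl | rfl | rfl
      · exact hYZ
      · rw [Matrix.mul_apply]
        refine Finset.sum_eq_zero fun c _ => ?_
        rw [hYj, zero_mul]
      · rw [Matrix.mul_apply]
        refine Finset.sum_eq_zero fun c _ => ?_
        rw [hYk, conjTranspose_apply]
        by_cases hc : c = co hn m
        · rw [hc, hZc, star_zero, mul_zero]
        · rw [if_neg hc, zero_mul]
    · rw [Matrix.mul_apply]
      refine Finset.sum_eq_zero fun c _ => ?_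
      rw [conjTranspose_apply, hZm m hm, Pi.zero_apply, star_zero, mul_zero]
  have e2 : Z * Yᴴ = 0 := by
    have := congrArg conjTranspose e1
    rwa [conjTranspose_mul, conjTranspose_conjTranspose, conjTranspose_zero] at this
  have h2 := h.lts.tri hYV hZ.1 hZ.1
  rw [e1, e2, Matrix.zero_mul, zero_add, sub_zero, sub_zero] at h2
  -- the row `i` of `Y`
  have hq : nsq (Z i) ≠ 0 := fun h0 => hZi (nsq_eq_zero h0)
  have e3 : ∀ r c, (Z * Zᴴ * Y) r c = if r = i then ((nsq (Z i) : ℝ) : K) * Y i c else 0 := by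
    intro r c
    rw [Matrix.mul_apply, Finset.sum_eq_single i]
    · by_cases hr : r = i
      · rw [if_pos hr, hr, gram_apply, dot_star_self]
      · rw [if_neg hr, gram_apply, hZm r hr, zero_dotProduct, zero_mul]
    · intro m _ hm
      rw [gram_apply, hZm m hm, star_zero, dotProduct_zero, zero_mul]
    · intro hcon
      exact absurd (Finset.mem_univ _) hcon
  set Y' := Y - (nsq (Z i))⁻¹ • (Z * Zᴴ * Y) with hY'
  have hY'V : Y' ∈ V := V.sub_mem hYV (V.smul_mem _ h2)
  have hY'a : ∀ r c, Y' r c = if r = k ∧ c = co hn i then B k c else 0 := by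
    intro r c
    rw [hY', Matrix.sub_apply, Matrix.smul_apply, e3, RCLike.real_smul_eq_coe_mul]
    rcases cover3 hij hik hjk r with rfl | rfl | rfl
    · rw [if_pos rfl, if_neg (fun h => hik h.1), ← mul_assoc, ← RCLike.ofReal_mul,
        inv_mul_cancel₀ hq]
      simp
    · rw [if_neg hij.symm, if_neg (fun h => hjk h.1), hYj]
      simp
    · rw [if_neg hik.symm, hYk, mul_zero, sub_zero]
      by_cases hc : c = co hn i
      · rw [if_pos hc, if_pos ⟨rfl, hc⟩]
      · rw [if_neg hc, if_neg (fun h => hc h.2)]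
  clear_value Y'
  have h3 := h.lts.tri hY'V hEi hZ.1
  have f1 : Z * (dg K n (pr i))ᴴ = 0 := tl_dg hZ.2 _
  have f2 : dg K n (pr i) * Y'ᴴ * Z = 0 := by
    ext r c
    rw [Matrix.mul_apply]
    refine Finset.sum_eq_zero fun m _ => ?_
    rw [E_mul hn]
    by_cases hm : m = i
    · rw [hm, hY'a, if_neg (show ¬ (i = k ∧ co hn i = co hn i) from fun h' => hik h'.1),
        star_zero]
      simp
    · rw [hZm m hm, Pi.zero_apply, mul_zero]
  have f3 : Z * Y'ᴴ = 0 := by
    ext r m
    rw [Matrix.mul_apply]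
    refine Finset.sum_eq_zero fun c _ => ?_
    rw [conjTranspose_apply, hY'a]
    by_cases hc : c = co hn i
    · rw [hc, hZc, zero_mul]
    · rw [if_neg (fun h => hc h.2), star_zero, mul_zero]
  rw [f1, f2, f3, Matrix.zero_mul, Matrix.zero_mul, add_zero, sub_zero, sub_zero] at h3
  have hW : Tl V (Y' * (dg K n (pr i))ᴴ * Z) := ⟨h3, by rw [Matrix.mul_assoc, hZ.2, Matrix.mul_zero]⟩
  have h4 := coord_zero hn h hij hik hjk hi hj hk hW
  have h5 : ∀ c, (Y' * (dg K n (pr i))ᴴ * Z) k c = B k (co hn i) * Z i c := by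
    intro c
    rw [Matrix.mul_apply, Finset.sum_eq_single i]
    · rw [mul_E hn, if_pos rfl, hY'a, if_pos ⟨rfl, rfl⟩]
    · intro m _ hm
      rw [hZm m hm, Pi.zero_apply, mul_zero]
    · intro hcon
      exact absurd (Finset.mem_univ _) hcon
  by_contra hB0
  apply hZi
  funext c
  have h6 := h5 c
  rw [h4, Pi.zero_apply] at h6
  exact (mul_eq_zero.1 h6.symm).resolve_left hB0

end Coord

end Pool.Agent.Helper20.CK3
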