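import Pool.Agent.Helper20.CK3.Alg5

/-!
# CK3: Lie triple systems of rank two and large dimension
-/

set_option autoImplicit false

namespace Pool.Agent.Helper20.CK3

open Matrix Module

variable {K : Type} [RCLike K] {n : ℕ} {V : Submodule ℝ (Matrix (Fin 3) (Fin n) K)}
  {ν : Fin 3 → ℝ}

/-- The projector to the elements which commute with `E l l`. -/
noncomputable def NN (hn : 3 ≤ n) (l : Fin 3) (B : Matrix (Fin 3) (Fin n) K) :
    Matrix (Fin 3) (Fin n) K :=
  B - (5 / 4 : ℝ) • TT hn l B + (1 / 4 : ℝ) • TT hn l (TT hn l B)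

theorem NN_mem (hn : 3 ≤ n) (h : Lts V) {l : Fin 3} (hl : dg K n (pr l) ∈ V)
    {B : Matrix (Fin 3) (Fin n) K} (hB : B ∈ V) : NN hn l B ∈ V :=
  V.add_mem (V.sub_mem hB (V.smul_mem _ (TT_mem hn h hl hB)))
    (V.smul_mem _ (TT_mem hn h hl (TT_mem hn h hl hB)))

theorem NN_apply (hn : 3 ≤ n) (l : Fin 3) (B : Matrix (Fin 3) (Fin n) K) (r : Fin 3) (c : Fin n) :
    NN hn l B r c = if r = l ∧ c = co hn l then (B r c + star (B r c)) / 2 else
      if r = l ∨ c = co hn l then 0 else B r c := by
  unfold NN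
  rw [Matrix.add_apply, Matrix.sub_apply, Matrix.smul_apply, Matrix.smul_apply,
    RCLike.real_smul_eq_coe_mul, RCLike.real_smul_eq_coe_mul]
  have e0 := TT_apply hn l B r c
  have e1 := TT_apply hn l (TT hn l B) r c
  have e2 : star (2 : K) = 2 := by
    have := RCLike.conj_ofReal (K := K) 2
    simpa using this
  generalize TT hn l (TT hn l B) r c = u at *
  generalize TT hn l B r c = t at *
  generalize B r c = x at *
  push_cast
  by_cases hr : r = l
  · by_cases hc : c = co hn l
    · rw [if_pos hc, if_pos hr, if_pos ⟨hr, hc⟩] at e0 e1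
      rw [if_pos ⟨hr, hc⟩, e1, e0, star_sub, star_add, star_mul, star_star, e2]
      ring
    · rw [if_neg hc, if_pos hr, if_neg (fun h => hc h.2)] at e0 e1
      rw [if_neg (fun h => hc h.2), if_pos (Or.inl hr), e1, e0]
      ring
  · by_cases hc : c = co hn l
    · rw [if_pos hc, if_neg hr, if_neg (fun h => hr h.1)] at e0 e1
      rw [if_neg (fun h => hr h.1), if_pos (Or.inr hc), e1, e0]
      ring
    · rw [if_neg hc, if_neg hr, if_neg (fun h => hr h.1)] at e0 e1
      rw [if_neg (fun h => hr h.1), if_neg (fun h => h.elim hr hc), e1, e0]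
      ring

/-- the elements with real diagonal entries -/
theorem cm_of_real (hn : 3 ≤ n) {B : Matrix (Fin 3) (Fin n) K} {s : Fin 3 → ℝ}
    (h1 : ∀ r l, s l ≠ 0 → r ≠ l → B r (co hn l) = 0)
    (h2 : ∀ l c, s l ≠ 0 → c ≠ co hn l → B l c = 0)
    (h3 : ∀ l, s l ≠ 0 → star (B l (co hn l)) = B l (co hn l)) : Cm B (dg K n s) := by
  have e1 : ∀ r m, (B * (dg K n s)ᴴ) r m = B r (co hn m) * ((s m : ℝ) : K) := by
    intro r m
    rw [dg_eq, conjTranspose_mul, di_star, ← Matrix.mul_assoc]
    unfold di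
    rw [Matrix.mul_diagonal, mul_J hn]
  have e2 : ∀ c c', ((dg K n s)ᴴ * B) c c' = ∑ r, (if c = co hn r then ((s r : ℝ) : K) else 0) *
      B r c' := by
    intro c c'
    rw [Matrix.mul_apply]
    refine Finset.sum_congr rfl fun r _ => ?_
    rw [conjTranspose_apply, dg_apply hn]
    congr 1
    by_cases hc : c = co hn r
    · rw [if_pos hc]
      exact RCLike.conj_ofReal _
    · rw [if_neg hc, star_zero]
  have e3 : ∀ c c', ((dg K n s)ᴴ * B) c c' = star (((dg K n s)ᴴ * B) c' c) := by
    intro c c'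
    rw [e2, e2, star_sum]
    refine Finset.sum_congr rfl fun r _ => ?_
    by_cases hs : s r = 0
    · rw [hs]
      simp
    · by_cases hc : c = co hn r
      · by_cases hc' : c' = co hn r
        · rw [if_pos hc, if_pos hc', star_mul, hc, hc', h3 r hs]
          have : star ((s r : ℝ) : K) = ((s r : ℝ) : K) := RCLike.conj_ofReal _
          rw [this, mul_comm]
        · rw [if_neg hc', zero_mul, star_zero, h2 r c' hs hc', mul_zero]
      · by_cases hc' : c' = co hn r
        · rw [if_neg hc, zero_mul, h2 r c hs hc, mul_zero, star_zero]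
        · rw [if_neg hc, if_neg hc', zero_mul, zero_mul, star_zero]
  refine ⟨?_, ?_⟩
  · have e4 : dg K n s * Bᴴ = (B * (dg K n s)ᴴ)ᴴ := by
      rw [conjTranspose_mul, conjTranspose_conjTranspose]
    rw [e4]
    ext r m
    rw [conjTranspose_apply, e1, e1, star_mul]
    have hst : ∀ x : ℝ, star ((x : ℝ) : K) = ((x : ℝ) : K) := fun x => RCLike.conj_ofReal _
    rw [hst]
    by_cases hrm : r = m
    · rw [hrm]
      by_cases hs : s m = 0
      · rw [hs]
        simp
      · rw [h3 m hs, mul_comm]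
    · have e5 : B r (co hn m) * ((s m : ℝ) : K) = 0 := by
        by_cases hs : s m = 0
        · rw [hs]
          simp
        · rw [h1 r m hs hrm, zero_mul]
      have e6 : ((s r : ℝ) : K) * star (B m (co hn r)) = 0 := by
        by_cases hs : s r = 0
        · rw [hs]
          simp
        · rw [h1 m r hs (Ne.symm hrm), star_zero, mul_zero]
      rw [e5, e6]
  · have e4 : Bᴴ * dg K n s = ((dg K n s)ᴴ * B)ᴴ := by
      rw [conjTranspose_mul, conjTranspose_conjTranspose]
    rw [e4]
    ext c c'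
    rw [conjTranspose_apply, ← e3]

/-- the coordinate planes -/
theorem coord_final (hn : 3 ≤ n) (h : Hyp V ν) {i j k : Fin 3} (hij : i ≠ j) (hik : i ≠ k)
    (hjk : j ≠ k) (hi : ν i = 0) (hj : ν j = 0) (hk : ν k ≠ 0) (hn' : 11 ≤ n)
    (hdim : 2 * (n * finrank ℝ K) ≤ finrank ℝ V) {B : Matrix (Fin 3) (Fin n) K} (hB : B ∈ V) :
    B k = 0 := by
  have hEi := coord_E hn h hij hik hjk hi hj
  have hEj := coord_E hn h hij.symm hjk hik hj hi
  have hki := coord_entry hn h hij hik hjk hi hj hk hn' hdim hB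
  have hkj := coord_entry hn h hij.symm hjk hik hj hi hk hn' hdim hB
  have hcij : co hn i ≠ co hn j := fun h' => hij ((co_inj hn).1 h')
  have h0 := NN_mem hn h.lts hEj (NN_mem hn h.lts hEi hB)
  set B0 := NN hn j (NN hn i B) with hB0
  have a1 : ∀ r c, B0 r c = if r = j ∧ c = co hn j then
      (NN hn i B r c + star (NN hn i B r c)) / 2 else
      if r = j ∨ c = co hn j then 0 else NN hn i B r c := fun r c => by rw [hB0, NN_apply]
  have a2 := NN_apply hn i B
  -- off the diagonal
  have b1 : ∀ r, r ≠ i → B0 r (co hn i) = 0 := by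
    intro r hr
    have e : NN hn i B r (co hn i) = 0 := by
      rw [a2, if_neg (fun h' => hr h'.1), if_pos (Or.inr rfl)]
    rw [a1, e, if_neg (fun h' => hcij h'.2)]
    split_ifs <;> rfl
  have b2 : ∀ r, r ≠ j → B0 r (co hn j) = 0 := by
    intro r hr
    rw [a1, if_neg (fun h' => hr h'.1), if_pos (Or.inr rfl)]
  have b3 : ∀ c, c ≠ co hn i → B0 i c = 0 := by
    intro c hc
    have e : NN hn i B i c = 0 := by
      rw [a2, if_neg (fun h' => hc h'.2), if_pos (Or.inl rfl)]
    rw [a1, e, if_neg (fun h' => hij h'.1)]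
    split_ifs <;> rfl
  have b4 : ∀ c, c ≠ co hn j → B0 j c = 0 := by
    intro c hc
    rw [a1, if_neg (fun h' => hc h'.2), if_pos (Or.inl rfl)]
  have b5 : ∀ x : K, star ((x + star x) / 2) = (x + star x) / 2 := by
    intro x
    have e2 : star (2 : K) = 2 := by
      have := RCLike.conj_ofReal (K := K) 2
      simpa using this
    rw [star_div₀, star_add, star_star, e2, add_comm]
  have b6 : star (B0 i (co hn i)) = B0 i (co hn i) := by
    have e : NN hn i B i (co hn i) = (B i (co hn i) + star (B i (co hn i))) / 2 := by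
      rw [a2, if_pos ⟨rfl, rfl⟩]
    rw [a1, if_neg (fun h' => hij h'.1), if_neg (fun h' => h'.elim hij hcij), e, b5]
  have b7 : star (B0 j (co hn j)) = B0 j (co hn j) := by
    rw [a1, if_pos ⟨rfl, rfl⟩, b5]
  have b8 : ∀ c, c ≠ co hn i → c ≠ co hn j → B0 k c = B k c := by
    intro c hc hc'
    rw [a1, if_neg (fun h' => hc' h'.2), if_neg (fun h' => h'.elim hjk.symm hc'), a2,
      if_neg (fun h' => hc h'.2), if_neg (fun h' => h'.elim hik.symm hc)]
  clear_value B0
  obtain ⟨s, hs, e⟩ := h.max _ h0 fun t ht => by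
    have htk : t k = 0 := by
      rw [sum3 hij hik hjk, hi, hj, zero_mul, zero_mul, zero_add, zero_add] at ht
      exact (mul_eq_zero.1 ht).resolve_left hk
    refine cm_of_real hn (fun r l hl hrl => ?_) (fun l c hl hlc => ?_) fun l hl => ?_
    · rcases cover3 hij hik hjk l with rfl | rfl | rfl
      · exact b1 r hrl
      · exact b2 r hrl
      · exact absurd htk hl
    · rcases cover3 hij hik hjk l with rfl | rfl | rfl
      · exact b3 c hlc
      · exact b4 c hlc
      · exact absurd htk hl
    · rcases cover3 hij hik hjk l with rfl | rfl | rfl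
      · exact b6
      · exact b7
      · exact absurd htk hl
  have hsk : s k = 0 := by
    rw [sum3 hij hik hjk, hi, hj, zero_mul, zero_mul, zero_add, zero_add] at hs
    exact (mul_eq_zero.1 hs).resolve_left hk
  funext c
  rw [Pi.zero_apply]
  by_cases hc : c = co hn i
  · rw [hc, hki]
  by_cases hc' : c = co hn j
  · rw [hc', hkj]
  rw [← b8 c hc hc', e, dg_apply hn, hsk]
  simp

theorem s_ALG : S_ALG := by
  intro K _ n hn' V hl ν hν hm hmax hdim
  have hn : 3 ≤ n := by omega
  have h : Hyp V ν := ⟨hl, hm, hmax⟩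
  have hd : 0 < finrank ℝ K := Module.finrank_pos
  have hnd : 11 * finrank ℝ K ≤ n * finrank ℝ K := Nat.mul_le_mul_right _ hn'
  -- two nonzero entries
  have key : ∀ i j k : Fin 3, i ≠ j → i ≠ k → j ≠ k → ν i ≠ 0 → ν j ≠ 0 → False := by
    intro i j k hij hik hjk hi hj
    have h1 : finrank ℝ V ≤ 9 * finrank ℝ K + n * finrank ℝ K := by
      by_cases hb : ν k = 0 ∧ ν i ^ 2 = ν j ^ 2
      · exact h.case_b hn hij hik hjk hi hj hb.1 hb.2
      · obtain ⟨s, hs, h1, h2, h3⟩ := exists_generic hij hik hjk hi hj hb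
        exact h.case_c hn hs hij hik hjk h1 h2 h3 hi hj
    omega
  -- one nonzero entry
  have fin : ∀ i j k : Fin 3, i ≠ j → i ≠ k → j ≠ k → ν i = 0 → ν j = 0 → ν k ≠ 0 →
      ∃ w : Fin 3 → K, w ≠ 0 ∧ ∀ B ∈ V, star w ᵥ* B = 0 := by
    intro i j k hij hik hjk hi hj hk
    refine ⟨Pi.single k 1, ?_, fun B hB => ?_⟩
    · intro h0
      have := congrFun h0 k
      rw [Pi.single_eq_same, Pi.zero_apply] at this
      exact one_ne_zero this
    · have h1 := coord_final hn h hij hik hjk hi hj hk hn' hdim hB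
      have h2 : star (Pi.single k (1 : K) : Fin 3 → K) = Pi.single k 1 := by
        rw [Pi.star_single, star_one]
      rw [h2, Matrix.single_one_vecMul]
      exact h1
  by_cases h0 : ν 0 = 0
  · by_cases h1 : ν 1 = 0
    · refine fin 0 1 2 (by decide) (by decide) (by decide) h0 h1 ?_
      intro h2
      apply hν
      funext l
      fin_cases l
      · exact h0
      · exact h1
      · exact h2
    · by_cases h2 : ν 2 = 0
      · exact fin 0 2 1 (by decide) (by decide) (by decide) h0 h2 h1
      · exact (key 1 2 0 (by decide) (by decide) (by decide) h1 h2).elim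
  · by_cases h1 : ν 1 = 0
    · by_cases h2 : ν 2 = 0
      · exact fin 1 2 0 (by decide) (by decide) (by decide) h1 h2 h0
      · exact (key 0 2 1 (by decide) (by decide) (by decide) h0 h2).elim
    · exact (key 0 1 2 (by decide) (by decide) (by decide) h0 h1).elim

end Pool.Agent.Helper20.CK3
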