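import Pool.Agent.Helper20.CKP.StdE
import Pool.Agent.Helper20.CKP.EvenN
import Pool.Agent.Helper20.CKP.Conv
import Pool.Agent.Helper40.CK.ClassK
import Pool.Agent.Helper43.ZT.Dyadic
import Pool.Agent.Helper59.ZD.Final
import Pool.Agent.Helper59.ZD.Grp
import Pool.Agent.Helper59.ZP.Grp
import Pool.Agent.Helper20.CK3.Final
import Pool.Agent.Helper20.CK3.RankOne3
import Pool.Agent.Helper20.CK3.Uni

/-!
# `O(2,n)`, `U(2,n)`, `O(3,n)`, `U(3,n)`: the cases with compact `H` or compact quotient only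
-/

namespace Pool.Agent.Helper20.CK3.Crisp

open Matrix Module Pool.Agent.Helper40.CK Pool.Agent.Helper20.CKP Pool.Agent.Helper29.CKP
  Pool.Agent.Helper17.CKF Pool.Agent.Helper20.CK3

/-- The necessary condition for two rows. -/
theorem list_of_admits {K : Type} [RCLike K] {n : ℕ} (hn : 3 ≤ n) {H : Subgroup (UpqK K 2 n)}
    (hH : IsReductive (H.map (UpqK K 2 n).subtype)) (had : AdmitsCocompact H) :
    TwoList K n (pSpace (H.map (UpqK K 2 n).subtype)) := by
  rcases (pdataK K 2 n).list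
    (A₁ := fun Q => ∃ u : Fin 2 → K, u ≠ 0 ∧ ∀ B, B ∈ Q ↔ ∃ x, B = vecMulVec u x)
    (A₂ := fun Q => Even n ∧ ∃ S : Matrix (Fin n) (Fin n) K, Sᵀ = -S ∧ S * Sᴴ = 1 ∧
      ∀ B, B ∈ Q ↔ ∃ x, B = Matrix.of ![x, S *ᵥ star x])
    (fun E _ _ _ _ _ _ _ hE B hB hodd δ h0 h1 =>
      exists_ratioK (by omega) hE B hB hodd δ h0 h1)
    (fun Q hQ δ hδ htri => classifyK hn Q hQ δ hδ htri) hH had with
    h | h | ⟨Q, hQ, ⟨u, hu, h⟩ | ⟨hev, S, h1, h2, h⟩⟩
  · exact Or.inl h
  · exact Or.inr (Or.inl h)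
  · have hX : ∀ X, X ∈ pSpace (H.map (UpqK K 2 n).subtype) ↔
        ∃ x : Fin n → K, X = pcK K 2 n (vecMulVec u x) := by
      intro X
      rw [hQ]
      constructor
      · rintro ⟨B, hB, rfl⟩
        obtain ⟨x, rfl⟩ := (h B).1 hB
        exact ⟨x, rfl⟩
      · rintro ⟨x, rfl⟩
        exact ⟨_, (h _).2 ⟨x, rfl⟩, rfl⟩
    have hev : Even n := (pdataK K (0 + 2) n).even_n hH had hu fun B => by
      rw [Submodule.mem_comap]
      constructor
      · intro hB
        obtain ⟨x, e⟩ := (hX _).1 hB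
        exact ⟨x, pcK_inj e⟩
      · rintro ⟨x, rfl⟩
        exact (hX _).2 ⟨x, rfl⟩
    exact Or.inr (Or.inr ⟨hev, Or.inl ⟨u, hu, hX⟩⟩)
  · refine Or.inr (Or.inr ⟨hev, Or.inr ⟨S, h1, h2, fun X => ?_⟩⟩)
    rw [hQ]
    constructor
    · rintro ⟨B, hB, rfl⟩
      obtain ⟨x, rfl⟩ := (h B).1 hB
      exact ⟨x, rfl⟩
    · rintro ⟨x, rfl⟩
      exact ⟨_, (h _).2 ⟨x, rfl⟩, rfl⟩

/-- The necessary condition for three rows. -/
theorem three_list {K : Type} [RCLike K] {n : ℕ}
    (hn : finrank ℝ K * 3 * (finrank ℝ K * 3 + 2) ≤ finrank ℝ K * n + 4)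
    {H : Subgroup (UpqK K 3 n)} (hH : IsReductive (H.map (UpqK K 3 n).subtype))
    (had : AdmitsCocompact H) : ThreeList K n (pSpace (H.map (UpqK K 3 n).subtype)) := by
  by_cases h1 : RealRankLeOne (H.map (UpqK K 3 n).subtype)
  · rcases rank_one_list hn hH h1 had with h | ⟨hdvd, u, hu, h⟩ | ⟨U, S, hr, hU, hT, hS, h⟩ |
      ⟨hK, N, U, A, I, J, h1, h2, -⟩
    · exact Or.inl h
    · exact Or.inr (Or.inr (Or.inl ⟨hdvd 2 (by norm_num), u, hu, h⟩))
    · refine Or.inr (Or.inr (Or.inr (Or.inr ⟨?_, even_of_skew hT hS, U, S, hU, hT, hS, h⟩)))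
      rcases RCLike.I_eq_zero_or_im_I_eq_one (K := K) with hI | hI
      · exact absurd (hr (finrank_R hI)) (by norm_num)
      · exact finrank_K hI
    · exfalso
      have h3 : (Uᴴ * U).rank ≤ 3 := (Matrix.rank_mul_le_right _ _).trans (Matrix.rank_le_height _)
      rw [h2, Matrix.rank_one, Fintype.card_fin] at h3
      omega
  · have hd : 0 < finrank ℝ K := Module.finrank_pos
    have hn11 : 11 ≤ n := by nlinarith
    rcases s_R23 K n hn11 H hH h1 had with h | ⟨h4, w, hw, h⟩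
    · exact Or.inr (Or.inl h)
    · exact Or.inr (Or.inr (Or.inr (Or.inl ⟨h4, w, hw, h⟩)))


/-- The space `p` of `H` is zero or the whole space. -/
theorem bot_or_top {K : Type} [RCLike K] {r n : ℕ}
    (hrn : (r = 2 ∧ 3 ≤ n ∧ Odd n) ∨ (r = 3 ∧ finrank ℝ K = 1 ∧ 11 ≤ n ∧ ¬ 4 ∣ n) ∨
      (r = 3 ∧ 23 ≤ n ∧ Odd n))
    {H : Subgroup (UpqK K r n)} (hH : IsReductive (H.map (UpqK K r n).subtype))
    (had : AdmitsCocompact H) :
    pSpace (H.map (UpqK K r n).subtype) = ⊥ ∨
      pSpace (H.map (UpqK K r n).subtype) = pSpace (UpqK K r n) := by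
  rcases hrn with ⟨rfl, hn, hodd⟩ | ⟨rfl, hK, hn, h4⟩ | ⟨rfl, hn, hodd⟩
  · rcases list_of_admits hn hH had with h | h | ⟨h, -⟩
    · exact Or.inl h
    · exact Or.inr h
    · exact absurd h (Nat.not_even_iff_odd.2 hodd)
  · rcases three_list (by rw [hK]; omega) hH had with h | h | ⟨h, -⟩ | ⟨h, -⟩ | ⟨h, -⟩
    · exact Or.inl h
    · exact Or.inr h
    · exact absurd h h4
    · exact absurd h h4
    · rw [hK] at h; exact absurd h (by norm_num)
  · have hd : finrank ℝ K = 1 ∨ finrank ℝ K = 2 := by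
      rcases RCLike.I_eq_zero_or_im_I_eq_one (K := K) with hI | hI
      · exact Or.inl (finrank_R hI)
      · exact Or.inr (finrank_K hI)
    have h4 : ¬ 4 ∣ n := fun h => by
      obtain ⟨a, ha⟩ := h
      obtain ⟨b, hb⟩ := hodd
      omega
    rcases three_list (by rcases hd with hd | hd <;> rw [hd] <;> omega) hH had with
      h | h | ⟨h, -⟩ | ⟨h, -⟩ | ⟨-, h, -⟩
    · exact Or.inl h
    · exact Or.inr h
    · exact absurd h h4
    · exact absurd h h4
    · exact absurd h (Nat.not_even_iff_odd.2 hodd)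

theorem main {K : Type} [RCLike K] {r n : ℕ}
    (hrn : (r = 2 ∧ 3 ≤ n ∧ Odd n) ∨ (r = 3 ∧ finrank ℝ K = 1 ∧ 11 ≤ n ∧ ¬ 4 ∣ n) ∨
      (r = 3 ∧ 23 ≤ n ∧ Odd n))
    {H : Subgroup (UpqK K r n)} (hH : IsReductive (H.map (UpqK K r n).subtype))
    (had : AdmitsCocompact H) :
    IsCompact (H : Set (UpqK K r n)) ∨ CompactSpace (UpqK K r n ⧸ H) := by
  have := locallyCompact_of (oneM (isReductive_upqK K r n).closed)
  have := t2_of (oneM (isReductive_upqK K r n).closed)
  have hred := isReductive_upqK K r n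
  have hCH : Cartan (oneM hred.closed) H (pSpace (H.map (UpqK K r n).subtype)) := cartan_one _ hH
  rcases bot_or_top hrn hH had with h | h
  · left
    rw [h] at hCH
    obtain ⟨D, hD, hD'⟩ := (acts_top (oneM hred.closed) hCH).proper {1} isCompact_singleton
    have hcl : IsClosed (H : Set (UpqK K r n)) := by
      have h1 := hH.closed
      have h2 : (H : Set (UpqK K r n)) =
          (fun g : UpqK K r n => (g : GL (Fin ((r + n) + (r + n))) ℝ)) ⁻¹'
            ((H.map (UpqK K r n).subtype : Subgroup (GL (Fin ((r + n) + (r + n))) ℝ)) : Set _) := by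
        ext g
        constructor
        · intro hg
          exact ⟨g, hg, rfl⟩
        · rintro ⟨g', hg', h3⟩
          have h4 : g' = g := Subtype.ext h3
          rw [← h4]; exact hg'
      rw [h2]
      exact h1.preimage continuous_subtype_val
    refine hD.of_isClosed_subset hcl fun g hg => ?_
    exact hD' g (Subgroup.mem_top _) 1 rfl 1 rfl g hg (by rw [mul_one, one_mul])
  · right
    rw [h] at hCH
    obtain ⟨C, hC, hC'⟩ := (acts_bot (oneM hred.closed) (cartan_top hred) hCH).cocompact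
    constructor
    have h1 : (Set.univ : Set (UpqK K r n ⧸ H)) =
        (fun g : UpqK K r n => (g : UpqK K r n ⧸ H)) '' C := by
      symm
      rw [Set.eq_univ_iff_forall]
      intro x
      obtain ⟨g, rfl⟩ := QuotientGroup.mk_surjective x
      obtain ⟨l, hl, c, hc, h', hh', e⟩ := hC' g
      refine ⟨c, hc, ?_⟩
      rw [Subgroup.mem_bot.1 hl, one_mul] at e
      rw [QuotientGroup.eq]
      rw [e]
      simpa using hh'
    rw [h1]
    exact hC.image QuotientGroup.continuous_mk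

end Pool.Agent.Helper20.CK3.Crisp
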