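import Pool.Agent.Helper20.CK3.Nat
import Pool.Agent.Helper43.EH.Block

/-!
# Reductive subgroups of `U(r,n;K)` which fix `min r n` coordinate vectors
-/

set_option autoImplicit false

namespace Pool.Agent.Helper20.CKN

open Matrix Module Topology Pool.Agent.Helper29.CKP Pool.Agent.Helper20.CKP
  Pool.Agent.Helper17.CKF

section Lin

variable {K : Type} [RCLike K]

/-- The matrix with the columns `e (f k)`. -/
def E (K : Type) [RCLike K] {a r : ℕ} (f : Fin a → Fin r) : Matrix (Fin r) (Fin a) K :=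
  (1 : Matrix (Fin r) (Fin r) K).submatrix id f

theorem E_star_mul {a r c : ℕ} (f : Fin a → Fin r) (B : Matrix (Fin r) (Fin c) K) (l : Fin a)
    (j : Fin c) : ((E K f)ᴴ * B) l j = B (f l) j := by
  simp [E, Matrix.mul_apply, Matrix.one_apply]

theorem E_orth {a r : ℕ} {f : Fin a → Fin r} (hf : Function.Injective f) :
    (E K f)ᴴ * E K f = 1 := by
  ext l k
  rw [E_star_mul]
  simp [E, Matrix.one_apply, hf.eq_iff]

theorem E_disj {a b r : ℕ} {f : Fin a → Fin r} {g : Fin b → Fin r} (h : ∀ k l, f k ≠ g l) :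
    (E K f)ᴴ * E K g = 0 := by
  ext l k
  rw [E_star_mul]
  simp [E, h]

theorem E_proj {a r c : ℕ} {f : Fin a → Fin r} (hf : Function.Injective f)
    (B : Matrix (Fin r) (Fin c) K) (h : ∀ i, (∀ k, f k ≠ i) → ∀ j, B i j = 0) :
    E K f * ((E K f)ᴴ * B) = B := by
  ext i j
  rw [Matrix.mul_apply]
  simp only [E_star_mul]
  by_cases hi : ∃ k, f k = i
  · obtain ⟨k, rfl⟩ := hi
    rw [Finset.sum_eq_single k]
    · show (1 : Matrix (Fin r) (Fin r) K) (f k) (f k) * B (f k) j = B (f k) j
      rw [Matrix.one_apply_eq, one_mul]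
    · intro l _ hl
      simp [E, hf.eq_iff, Ne.symm hl]
    · intro h; exact absurd (Finset.mem_univ k) h
  · have hi' : ∀ k, f k ≠ i := fun k hk => hi ⟨k, hk⟩
    rw [h i hi' j]
    refine Finset.sum_eq_zero fun l _ => ?_
    simp [E, Ne.symm (hi' l)]

/-- A Hermitian one parameter group which fixes a vector. -/
theorem mulVec_zero {m : ℕ} (Y : Matrix (Fin m) (Fin m) K) (e : Fin m → K)
    (h : ∀ t : ℝ, NormedSpace.exp (t • Y) *ᵥ e = e) : Y *ᵥ e = 0 := by
  let L : Matrix (Fin m) (Fin m) K →ₗ[ℝ] (Fin m → K) :=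
    { toFun := fun M => M *ᵥ e
      map_add' := fun A B => Matrix.add_mulVec A B e
      map_smul' := fun c A => Matrix.smul_mulVec c A e }
  open scoped Norms.Operator in
  have h1 : HasDerivAt (fun t : ℝ => NormedSpace.exp (t • Y))
      (NormedSpace.exp ((0 : ℝ) • Y) * Y) 0 := hasDerivAt_exp_smul_const Y (0 : ℝ)
  open scoped Norms.Operator in
  have h2 : HasDerivAt (fun t : ℝ => L (NormedSpace.exp (t • Y)))
      (L (NormedSpace.exp ((0 : ℝ) • Y) * Y)) 0 :=
    L.toContinuousLinearMap.hasFDerivAt.comp_hasDerivAt (0 : ℝ) h1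
  have h3 : (fun t : ℝ => L (NormedSpace.exp (t • Y))) = fun _ => e := funext h
  rw [h3] at h2
  have h4 := h2.unique (hasDerivAt_const (0 : ℝ) e)
  rw [zero_smul, NormedSpace.exp_zero, one_mul] at h4
  exact h4

end Lin

/-- `H` is compact if its space `p` is zero. -/
theorem compact_of_bot {K : Type} [RCLike K] {r n : ℕ} {H : Subgroup (UpqK K r n)}
    (hH : CKP.IsReductive (H.map (UpqK K r n).subtype))
    (h : pSpace (H.map (UpqK K r n).subtype) = ⊥) : IsCompact (H : Set (UpqK K r n)) := by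
  have := locallyCompact_of (oneM (isReductive_upqK K r n).closed)
  have := t2_of (oneM (isReductive_upqK K r n).closed)
  have hred := isReductive_upqK K r n
  have hCH : Cartan (oneM hred.closed) H (pSpace (H.map (UpqK K r n).subtype)) := cartan_one _ hH
  rw [h] at hCH
  obtain ⟨D, hD, hD'⟩ := (acts_top (oneM hred.closed) hCH).proper {1} isCompact_singleton
  have hcl : IsClosed (H : Set (UpqK K r n)) := by
    have h1 := hH.closed
    have h2 : (H : Set (UpqK K r n)) =
        (fun g : UpqK K r n => (g : GL (Fin ((r + n) + (r + n))) ℝ)) ⁻¹'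
          ((H.map (UpqK K r n).subtype : Subgroup (GL (Fin ((r + n) + (r + n))) ℝ)) : Set _) := by
      ext g
      constructor
      · intro hg
        exact ⟨g, hg, rfl⟩
      · rintro ⟨g', hg', h3⟩
        have h4 : g' = g := Subtype.ext h3
        rw [← h4]; exact hg'
    rw [h2]
    exact h1.preimage continuous_subtype_val
  refine hD.of_isClosed_subset hcl fun g hg => ?_
  exact hD' g (Subgroup.mem_top _) 1 rfl 1 rfl g hg (by rw [mul_one, one_mul])

section Main

variable {K : Type} [RCLike K] {r n : ℕ}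

/-- The elements of the space `p` of the real form of `H`. -/
theorem of_mem_p {H : Subgroup (U K r n)} (hH : IsReductive H)
    {X : Matrix (Fin ((r + n) + (r + n))) (Fin ((r + n) + (r + n))) ℝ}
    (hX : X ∈ pSpace ((H.map (phiHom K r n)).map (UpqK K r n).subtype)) :
    ∃ B : Matrix (Fin r) (Fin n) K, X = pcK K r n B ∧
      ∀ t : ℝ, ∃ h ∈ H, h.val.val = NormedSpace.exp (t • ckb 0 B Bᴴ 0) := by
  obtain ⟨h1, h2⟩ := (mem_pSpace (reductive_map hH)).1 hX
  obtain ⟨_, ⟨h, hh, rfl⟩, he⟩ := h2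
  have h3 : expGL X ∈ UpqK K r n := he ▸ (phiHom K r n h).2
  obtain ⟨B, rfl⟩ := mem_pSpace_upqK.1 ((mem_pSpace (isReductive_upqK K r n)).2 ⟨h1, h3⟩)
  refine ⟨B, rfl, ?_⟩
  have h4 : rlK h.val.val = NormedSpace.exp (rlK (ckb 0 B Bᴴ 0)) := by
    have h5 := congrArg Units.val he
    rw [expGL_val] at h5
    exact h5
  rw [exp_rlK] at h4
  have hY : (ckb 0 B Bᴴ 0)ᴴ = ckb 0 B Bᴴ 0 := by
    rw [ckb_star, conjTranspose_zero, conjTranspose_zero, conjTranspose_conjTranspose]
  exact hH.2.2 _ hY ⟨h, hh, rlK_inj h4⟩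

theorem ckb_left (B : Matrix (Fin r) (Fin n) K) (i : Fin r) (j : Fin n) :
    ckb 0 B Bᴴ 0 (Fin.natAdd r j) (Fin.castAdd n i) = star (B i j) := by
  rw [ckb, Matrix.submatrix_apply, finSumFinEquiv_symm_apply_natAdd,
    finSumFinEquiv_symm_apply_castAdd]
  rfl

theorem ckb_right (B : Matrix (Fin r) (Fin n) K) (i : Fin r) (j : Fin n) :
    ckb 0 B Bᴴ 0 (Fin.castAdd n i) (Fin.natAdd r j) = B i j := by
  rw [ckb, Matrix.submatrix_apply, finSumFinEquiv_symm_apply_natAdd,
    finSumFinEquiv_symm_apply_castAdd]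
  rfl

/-- There is a family of `a` elements outside a set of `b` elements. -/
theorem exists_outside {N a : ℕ} (S : Finset (Fin N)) (h : a + S.card ≤ N) :
    ∃ g : Fin a → Fin N, Function.Injective g ∧ ∀ k, g k ∉ S := by
  have h1 : a ≤ Sᶜ.card := by
    rw [Finset.card_compl, Fintype.card_fin]
    omega
  obtain ⟨S', hS', hc⟩ := Finset.exists_subset_card_eq h1
  refine ⟨S'.orderEmbOfFin hc, (S'.orderEmbOfFin hc).injective, fun k => ?_⟩
  have h2 := hS' (S'.orderEmbOfFin_mem hc k)
  exact Finset.mem_compl.1 h2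

theorem fixed {H : Subgroup (U K r n)} (hH : IsReductive H)
    (T : Finset (Fin (r + n))) (hT : min r n ≤ T.card)
    (hfix : ∀ h ∈ H, ∀ i ∈ T, h.val.val *ᵥ Pi.single i 1 = Pi.single i 1)
    (had : AdmitsCocompact H) : IsCompact (H : Set (U K r n)) := by
  classical
  set H' := H.map (phiHom K r n) with hH'
  have hred := reductive_map hH
  have had' := admits_map (phi K r n) mem_map_phi had
  set q := pSpace (H'.map (UpqK K r n).subtype) with hq
  let Sr : Finset (Fin r) := Finset.univ.filter fun i => Fin.castAdd n i ∉ T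
  let Sn : Finset (Fin n) := Finset.univ.filter fun j => Fin.natAdd r j ∉ T
  have hcard : T.card + (Sr.card + Sn.card) ≤ r + n := by
    have h1 : Disjoint (Sr.map (Fin.castAddEmb n)) (Sn.map (Fin.natAddEmb r)) := by
      rw [Finset.disjoint_left]
      intro x hx hy
      obtain ⟨i, -, rfl⟩ := Finset.mem_map.1 hx
      obtain ⟨j, -, hj⟩ := Finset.mem_map.1 hy
      have h2 := congrArg Fin.val hj
      simp at h2
      omega
    have h3 : Disjoint T (Sr.map (Fin.castAddEmb n) ∪ Sn.map (Fin.natAddEmb r)) := by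
      rw [Finset.disjoint_left]
      intro x hx hy
      rcases Finset.mem_union.1 hy with hy | hy
      · obtain ⟨i, hi, rfl⟩ := Finset.mem_map.1 hy
        exact (Finset.mem_filter.1 hi).2 hx
      · obtain ⟨i, hi, rfl⟩ := Finset.mem_map.1 hy
        exact (Finset.mem_filter.1 hi).2 hx
    have h4 : (T ∪ (Sr.map (Fin.castAddEmb n) ∪ Sn.map (Fin.natAddEmb r))).card ≤ r + n := by
      refine (Finset.card_le_univ _).trans ?_
      rw [Fintype.card_fin]
    rw [Finset.card_union_of_disjoint h3, Finset.card_union_of_disjoint h1, Finset.card_map,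
      Finset.card_map] at h4
    exact h4
  -- the elements of `p` have zero rows and columns
  have hrow : ∀ B : Matrix (Fin r) (Fin n) K, pcK K r n B ∈ q →
      (∀ i, Fin.castAdd n i ∈ T → ∀ j, B i j = 0) ∧ (∀ j, Fin.natAdd r j ∈ T → ∀ i, B i j = 0) := by
    intro B hB
    obtain ⟨B', hB', hexp⟩ := of_mem_p hH hB
    obtain rfl := pcK_inj hB'
    have hz : ∀ i ∈ T, ckb 0 B Bᴴ 0 *ᵥ Pi.single i 1 = 0 := fun i hi =>
      mulVec_zero _ _ fun t => by
        obtain ⟨h, hh, he⟩ := hexp t
        rw [← he]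
        exact hfix h hh i hi
    constructor
    · intro i hi j
      have h1 := congrFun (hz _ hi) (Fin.natAdd r j)
      rw [Matrix.mulVec_single_one] at h1
      have h2 : star (B i j) = 0 := (ckb_left B i j).symm.trans h1
      exact star_eq_zero.1 h2
    · intro j hj i
      have h1 := congrFun (hz _ hj) (Fin.castAdd n i)
      rw [Matrix.mulVec_single_one] at h1
      exact (ckb_right B i j).symm.trans h1
  let f := Sr.orderEmbOfFin rfl
  let g := Sn.orderEmbOfFin rfl
  have hf : ∀ i, (∀ k, f k ≠ i) → Fin.castAdd n i ∈ T := by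
    intro i hi
    by_contra h
    have h1 : i ∈ Sr := Finset.mem_filter.2 ⟨Finset.mem_univ i, h⟩
    have h2 : i ∈ Set.range f := by
      rw [Finset.range_orderEmbOfFin]; exact h1
    obtain ⟨k, hk⟩ := h2
    exact hi k hk
  have hg : ∀ i, (∀ k, g k ≠ i) → Fin.natAdd r i ∈ T := by
    intro i hi
    by_contra h
    have h1 : i ∈ Sn := Finset.mem_filter.2 ⟨Finset.mem_univ i, h⟩
    have h2 : i ∈ Set.range g := by
      rw [Finset.range_orderEmbOfFin]; exact h1
    obtain ⟨k, hk⟩ := h2
    exact hi k hk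
  have hp : q = ((q.comap (pcK K r n)) ⊔ ⊥).map (pcK K r n) := by
    rw [sup_bot_eq]
    refine le_antisymm (fun X hX => ?_) (Submodule.map_comap_le _ _)
    obtain ⟨B, hB, -⟩ := of_mem_p hH hX
    exact ⟨B, by rw [SetLike.mem_coe, Submodule.mem_comap, ← hB]; exact hX, hB.symm⟩
  have hform : ∀ X ∈ q.comap (pcK K r n),
      ∃ A : Matrix (Fin Sr.card) (Fin Sn.card) K, X = E K f * A * (E K g)ᴴ := by
    intro B hB
    obtain ⟨h1, h2⟩ := hrow B hB
    refine ⟨(E K f)ᴴ * B * E K g, ?_⟩
    have h3 : E K f * ((E K f)ᴴ * B) = B :=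
      E_proj f.injective B fun i hi j => h1 i (hf i hi) j
    have h4 : E K g * ((E K g)ᴴ * Bᴴ) = Bᴴ :=
      E_proj g.injective Bᴴ fun i hi j => by
        rw [conjTranspose_apply, h2 i (hg i hi) j, star_zero]
    have h5 : B * E K g * (E K g)ᴴ = B := by
      have h6 := congrArg conjTranspose h4
      rw [conjTranspose_mul, conjTranspose_mul, conjTranspose_conjTranspose,
        conjTranspose_conjTranspose] at h6
      exact h6
    calc B = (E K f * ((E K f)ᴴ * B)) * E K g * (E K g)ᴴ := by rw [h3, h5]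
      _ = _ := by simp only [Matrix.mul_assoc]
  have hbot : q.comap (pcK K r n) = ⊥ := by
    refine Pool.Agent.Helper43.EH.no_block hred had' (E K f) (E K g) (E_orth f.injective)
      (E_orth g.injective) _ ⊥ hp hform ?_
    rcases le_total r n with hrn | hrn
    · left
      rw [min_eq_left hrn] at hT
      obtain ⟨g', hg', hg''⟩ := exists_outside (a := Sr.card) Sn (by omega)
      refine ⟨E K g', E_orth hg', E_disj fun k l h => ?_, fun X hX => ?_⟩
      · exact hg'' l (h ▸ Sn.orderEmbOfFin_mem rfl k)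
      · rw [(Submodule.mem_bot ℝ).1 hX]
        exact ⟨Matrix.zero_mul _, Matrix.zero_mul _⟩
    · right
      rw [min_eq_right hrn] at hT
      obtain ⟨g', hg', hg''⟩ := exists_outside (a := Sn.card) Sr (by omega)
      refine ⟨E K g', E_orth hg', E_disj fun k l h => ?_, fun X hX => ?_⟩
      · exact hg'' l (h ▸ Sr.orderEmbOfFin_mem rfl k)
      · rw [(Submodule.mem_bot ℝ).1 hX, conjTranspose_zero]
        exact ⟨Matrix.zero_mul _, Matrix.zero_mul _⟩
  have hq0 : q = ⊥ := by rw [hp, hbot, sup_bot_eq, Submodule.map_bot]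
  have h1 := compact_of_bot hred hq0
  have h2 : (H : Set (U K r n)) = (phi K r n).symm ''
      ((H.map (phiHom K r n) : Subgroup (UpqK K r n)) : Set (UpqK K r n)) := by
    ext g
    constructor
    · intro hg
      exact ⟨phi K r n g, (mem_map_phi g).2 hg, (phi K r n).symm_apply_apply g⟩
    · rintro ⟨_, ⟨g', hg', rfl⟩, rfl⟩
      show (phi K r n).symm (phi K r n g') ∈ H
      rwa [ContinuousMulEquiv.symm_apply_apply]
  rw [h2]
  exact h1.image (phi K r n).symm.continuous

end Main

end Pool.Agent.Helper20.CKN
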