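import Pool.Agent.Helper20.CK3.NatDefs
import Pool.Agent.Helper20.CK3.Crisp

/-!
# From the real form `UpqK K r n` to the group `U K r n` of matrices over `K`
-/

set_option autoImplicit false

namespace Pool.Agent.Helper20.CKN

open Matrix Module Topology Pool.Agent.Helper29.CKP

section Transport

variable {G G' : Type} [Group G] [TopologicalSpace G] [Group G'] [TopologicalSpace G']

/-- The map of the quotients given by an isomorphism. -/
def fq (e : G ≃ₜ* G') (H : Subgroup G) (H' : Subgroup G') (h : ∀ g, e g ∈ H' ↔ g ∈ H) :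
    G ⧸ H → G' ⧸ H' :=
  Quotient.map' e fun a b hab => by
    rw [QuotientGroup.leftRel_apply] at hab ⊢
    rw [← map_inv, ← map_mul, h]
    exact hab

theorem fq_continuous (e : G ≃ₜ* G') (H : Subgroup G) (H' : Subgroup G')
    (h : ∀ g, e g ∈ H' ↔ g ∈ H) : Continuous (fq e H H' h) :=
  Continuous.quotient_map' e.continuous _

theorem symm_iff {e : G ≃ₜ* G'} {H : Subgroup G} {H' : Subgroup G'}
    (h : ∀ g, e g ∈ H' ↔ g ∈ H) : ∀ g', e.symm g' ∈ H ↔ g' ∈ H' := fun g' => by
  rw [← h, ContinuousMulEquiv.apply_symm_apply]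

theorem fq_fq (e : G ≃ₜ* G') (H : Subgroup G) (H' : Subgroup G')
    (h : ∀ g, e g ∈ H' ↔ g ∈ H) (x : G ⧸ H) :
    fq e.symm H' H (symm_iff h) (fq e H H' h x) = x := by
  obtain ⟨g, rfl⟩ := QuotientGroup.mk_surjective x
  show ((e.symm (e g) : G) : G ⧸ H) = (g : G ⧸ H)
  rw [ContinuousMulEquiv.symm_apply_apply]

theorem fq_fq' (e : G ≃ₜ* G') (H : Subgroup G) (H' : Subgroup G')
    (h : ∀ g, e g ∈ H' ↔ g ∈ H) (x : G' ⧸ H') :
    fq e H H' h (fq e.symm H' H (symm_iff h) x) = x := by
  obtain ⟨g, rfl⟩ := QuotientGroup.mk_surjective x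
  show ((e (e.symm g) : G') : G' ⧸ H') = (g : G' ⧸ H')
  rw [ContinuousMulEquiv.apply_symm_apply]

theorem fq_smul (e : G ≃ₜ* G') (H : Subgroup G) (H' : Subgroup G')
    (h : ∀ g, e g ∈ H' ↔ g ∈ H) (γ : G) (x : G ⧸ H) :
    fq e H H' h (γ • x) = e γ • fq e H H' h x := by
  obtain ⟨g, rfl⟩ := QuotientGroup.mk_surjective x
  show ((e (γ * g) : G') : G' ⧸ H') = ((e γ * e g : G') : G' ⧸ H')
  rw [map_mul]

theorem admits_map (e : G ≃ₜ* G') {H : Subgroup G} {H' : Subgroup G'}
    (h : ∀ g, e g ∈ H' ↔ g ∈ H) (had : AdmitsCocompact H) :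
    Pool.Agent.Helper40.CK.AdmitsCocompact H' := by
  obtain ⟨Γ, hd, hf, hp, hc⟩ := had
  refine ⟨Γ.map e.toMulEquiv.toMonoidHom, ⟨⟨?_, ?_, ?_⟩, ?_⟩⟩
  · let f : Γ.map e.toMulEquiv.toMonoidHom → Γ := fun y => ⟨e.symm y.1, by
      obtain ⟨γ, hγ, h1⟩ := y.2
      rw [← h1]
      show e.symm (e γ) ∈ Γ
      rw [ContinuousMulEquiv.symm_apply_apply]
      exact hγ⟩
    refine DiscreteTopology.of_continuous_injective (f := f) ?_ ?_
    · exact (e.symm.continuous.comp continuous_subtype_val).subtype_mk _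
    · intro a b hab
      exact Subtype.ext (e.symm.injective (congrArg Subtype.val hab))
  · rintro _ ⟨γ, hγ, rfl⟩ x hx
    have h1 : γ • fq e.symm H' H (symm_iff h) x = fq e.symm H' H (symm_iff h) x := by
      have h2 := congrArg (fq e.symm H' H (symm_iff h)) hx
      rw [fq_smul] at h2
      have h3 : e.symm (e.toMulEquiv.toMonoidHom γ) = γ := e.symm_apply_apply γ
      rwa [h3] at h2
    rw [hf γ hγ _ h1, map_one]
  · intro C hC
    refine ((hp _ (hC.image (fq_continuous e.symm H' H (symm_iff h)))).image e).subset ?_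
    rintro _ ⟨⟨γ, hγ, rfl⟩, x, hx, hx'⟩
    refine ⟨γ, ⟨hγ, _, ⟨x, hx, rfl⟩, ⟨_, hx', ?_⟩⟩, rfl⟩
    rw [fq_smul]
    have h3 : e.symm (e.toMulEquiv.toMonoidHom γ) = γ := e.symm_apply_apply γ
    rw [h3]
  · let q : MulAction.orbitRel.Quotient Γ (G ⧸ H) →
        MulAction.orbitRel.Quotient (Γ.map e.toMulEquiv.toMonoidHom) (G' ⧸ H') :=
      Quotient.map' (fq e H H' h) fun a b hab => by
        obtain ⟨γ, hγ⟩ := hab
        refine ⟨⟨e γ.1, ⟨γ.1, γ.2, rfl⟩⟩, ?_⟩
        have h4 : γ.1 • b = a := hγ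
        show e γ.1 • fq e H H' h b = fq e H H' h a
        rw [← fq_smul, h4]
    have hq : Continuous q := Continuous.quotient_map' (fq_continuous e H H' h) _
    have hs : Function.Surjective q := by
      intro y
      obtain ⟨x, rfl⟩ := Quotient.mk''_surjective y
      refine ⟨Quotient.mk'' (fq e.symm H' H (symm_iff h) x), ?_⟩
      show Quotient.mk'' (fq e H H' h (fq e.symm H' H (symm_iff h) x)) = _
      rw [fq_fq']
    exact hs.compactSpace hq

theorem compact_back (e : G ≃ₜ* G') {H : Subgroup G} {H' : Subgroup G'}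
    (h : ∀ g, e g ∈ H' ↔ g ∈ H) (hc : CompactSpace (G' ⧸ H')) : CompactSpace (G ⧸ H) :=
  have hs : Function.Surjective (fq e.symm H' H (symm_iff h)) :=
    fun x => ⟨fq e H H' h x, fq_fq e H H' h x⟩
  hs.compactSpace (fq_continuous _ _ _ _)

end Transport

section Real

variable {K : Type} [RCLike K] {m : ℕ}

/-- The inverse of `rlK` on its image. -/
noncomputable def lk (K : Type) [RCLike K] {m : ℕ} (M : Matrix (Fin (m + m)) (Fin (m + m)) ℝ) :
    Matrix (Fin m) (Fin m) K :=
  Matrix.of fun i j => ((M (Fin.castAdd m i) (Fin.castAdd m j) : ℝ) : K) +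
    ((M (Fin.natAdd m i) (Fin.castAdd m j) : ℝ) : K) * RCLike.I

theorem lk_rlK (Z : Matrix (Fin m) (Fin m) K) : lk K (rlK Z) = Z := by
  ext i j
  have h1 : rlK Z (Fin.castAdd m i) (Fin.castAdd m j) = RCLike.re (Z i j) := by
    rw [rlK, bm, Matrix.submatrix_apply, finSumFinEquiv_symm_apply_castAdd,
      finSumFinEquiv_symm_apply_castAdd]
    rfl
  have h2 : rlK Z (Fin.natAdd m i) (Fin.castAdd m j) = RCLike.im (Z i j) := by
    rw [rlK, bm, Matrix.submatrix_apply, finSumFinEquiv_symm_apply_castAdd,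
      finSumFinEquiv_symm_apply_natAdd]
    rfl
  show ((rlK Z (Fin.castAdd m i) (Fin.castAdd m j) : ℝ) : K) +
    ((rlK Z (Fin.natAdd m i) (Fin.castAdd m j) : ℝ) : K) * RCLike.I = Z i j
  rw [h1, h2, RCLike.re_add_im]

theorem lk_continuous : Continuous (lk K : Matrix (Fin (m + m)) (Fin (m + m)) ℝ → _) := by
  refine continuous_matrix fun i j => ?_
  exact (RCLike.continuous_ofReal.comp (continuous_id.matrix_elem _ _)).add
    ((RCLike.continuous_ofReal.comp (continuous_id.matrix_elem _ _)).mul continuous_const)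

/-- `rlK` as a ring homomorphism. -/
noncomputable def rlR (K : Type) [RCLike K] (m : ℕ) :
    Matrix (Fin m) (Fin m) K →+* Matrix (Fin (m + m)) (Fin (m + m)) ℝ where
  toFun := rlK
  map_one' := rlK_one
  map_mul' := rlK_mul
  map_zero' := by
    have h := rlK_add (0 : Matrix (Fin m) (Fin m) K) 0
    rw [add_zero] at h
    exact left_eq_add.1 h
  map_add' := rlK_add

theorem rlK_continuous : Continuous (rlK : Matrix (Fin m) (Fin m) K → _) := by
  let f : Matrix (Fin m) (Fin m) K →ₗ[ℝ] Matrix (Fin (m + m)) (Fin (m + m)) ℝ :=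
    { toFun := rlK, map_add' := rlK_add, map_smul' := rlK_smul }
  exact f.continuous_of_finiteDimensional

theorem exp_rlK (Z : Matrix (Fin m) (Fin m) K) :
    NormedSpace.exp (rlK Z) = rlK (NormedSpace.exp Z) := by
  open scoped Norms.Operator in
  exact (NormedSpace.map_exp (rlR K m) rlK_continuous Z).symm

end Real

section Iso

variable {K : Type} [RCLike K] {r n : ℕ}

/-- The homomorphism from `U K r n` to its real form. -/
noncomputable def phiHom (K : Type) [RCLike K] (r n : ℕ) : U K r n →* UpqK K r n where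
  toFun g := ⟨⟨rlK g.val.val, rlK g.val⁻¹.val,
    by rw [← rlK_mul]; exact (congrArg rlK g.val.mul_inv).trans rlK_one,
    by rw [← rlK_mul]; exact (congrArg rlK g.val.inv_mul).trans rlK_one⟩, ⟨g.val.val, rfl, g.2⟩⟩
  map_one' := Subtype.ext (Units.ext rlK_one)
  map_mul' _ _ := Subtype.ext (Units.ext (rlK_mul _ _))

theorem phiHom_val (g : U K r n) : (phiHom K r n g).val.val = rlK g.val.val := rfl

theorem phiHom_inj : Function.Injective (phiHom K r n) := by
  intro g h hgh
  refine Subtype.ext (Units.ext (rlK_inj ?_))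
  exact congrArg (fun u : UpqK K r n => u.val.val) hgh

theorem phiHom_surj : Function.Surjective (phiHom K r n) := by
  rintro ⟨u, Z, hZ, hJ⟩
  have h1 := rlK_isUnit_of hJ
  refine ⟨⟨⟨Z, JK K r n * Zᴴ * JK K r n, h1, mul_eq_one_comm.1 h1⟩, hJ⟩, ?_⟩
  exact Subtype.ext (Units.ext hZ.symm)

theorem phiHom_continuous : Continuous (phiHom K r n) := by
  refine Continuous.subtype_mk (Units.continuous_iff.2 ⟨?_, ?_⟩) _
  · exact rlK_continuous.comp (Units.continuous_val.comp continuous_subtype_val)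
  · exact rlK_continuous.comp
      (Units.continuous_iff.1 (continuous_subtype_val (p := fun g => g ∈ U K r n))).2

/-- `U K r n` is isomorphic to its real form. -/
noncomputable def phi (K : Type) [RCLike K] (r n : ℕ) : U K r n ≃ₜ* UpqK K r n :=
  { MulEquiv.ofBijective (phiHom K r n) ⟨phiHom_inj, phiHom_surj⟩ with
    continuous_toFun := phiHom_continuous
    continuous_invFun := by
      let ψ := (MulEquiv.ofBijective (phiHom K r n) ⟨phiHom_inj, phiHom_surj⟩).symm
      have h0 : ∀ u, phiHom K r n (ψ u) = u := fun u =>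
        (MulEquiv.ofBijective (phiHom K r n) ⟨phiHom_inj, phiHom_surj⟩).apply_symm_apply u
      have h1 : ∀ u, (ψ u).val.val = lk K u.val.val := fun u => by
        conv_rhs => rw [← h0 u, phiHom_val, lk_rlK]
      have h2 : ∀ u, (ψ u).val⁻¹.val = lk K u.val⁻¹.val := fun u => by
        have h3 := h1 u⁻¹
        rw [map_inv] at h3
        exact h3
      have h5 : Continuous fun u => (ψ u).val := by
        refine Units.continuous_iff.2 ⟨?_, ?_⟩
        · have : (Units.val ∘ fun u => (ψ u).val) = fun u : UpqK K r n => lk K u.val.val :=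
            funext h1
          rw [this]
          exact lk_continuous.comp (Units.continuous_val.comp continuous_subtype_val)
        · have : (fun u => (ψ u).val⁻¹.val) = fun u : UpqK K r n => lk K u.val⁻¹.val :=
            funext h2
          rw [this]
          exact lk_continuous.comp
            (Units.continuous_iff.1 (continuous_subtype_val (p := fun g => g ∈ UpqK K r n))).2
      exact h5.subtype_mk _ }

theorem phi_apply (g : U K r n) : phi K r n g = phiHom K r n g := rfl

theorem mem_map_phi {H : Subgroup (U K r n)} (g : U K r n) :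
    phi K r n g ∈ H.map (phiHom K r n) ↔ g ∈ H := by
  constructor
  · rintro ⟨g', hg', h⟩
    rwa [← phiHom_inj h]
  · exact fun h => ⟨g, h, rfl⟩

theorem reductive_map {H : Subgroup (U K r n)} (hH : IsReductive H) :
    Pool.Agent.Helper20.CKP.IsReductive ((H.map (phiHom K r n)).map (UpqK K r n).subtype) := by
  obtain ⟨hcl, hst, hpow⟩ := hH
  refine ⟨?_, ?_, ?_⟩
  · have h1 : IsClosed ((H.map (phiHom K r n) : Subgroup (UpqK K r n)) : Set (UpqK K r n)) := by
      have h2 : ((H.map (phiHom K r n) : Subgroup (UpqK K r n)) : Set (UpqK K r n)) =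
          (phi K r n).symm ⁻¹' (H : Set (U K r n)) := by
        ext u
        constructor
        · rintro ⟨g, hg, rfl⟩
          show (phi K r n).symm (phi K r n g) ∈ H
          rwa [ContinuousMulEquiv.symm_apply_apply]
        · intro hu
          exact ⟨_, hu, (phi K r n).apply_symm_apply u⟩
      rw [h2]
      exact hcl.preimage (phi K r n).symm.continuous
    exact (isReductive_upqK K r n).closed.isClosedEmbedding_subtypeVal.isClosedMap _ h1
  · rintro _ ⟨_, ⟨h, hh, rfl⟩, rfl⟩
    obtain ⟨h', hh', he⟩ := hst h hh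
    refine ⟨(phiHom K r n h').val, ⟨_, ⟨h', hh', rfl⟩, rfl⟩, ?_⟩
    show rlK h'.val.val = (rlK h.val.val)ᵀ
    rw [he, rlK_transpose]
  · rintro X hX ⟨_, ⟨h, hh, rfl⟩, he⟩ t
    have h1 : Pool.Agent.Helper20.CKP.expGL X ∈ UpqK K r n := he ▸ (phiHom K r n h).2
    obtain ⟨Y, rfl⟩ := comm_iffK.1 ((expGL_mem_upqK hX).1 h1).1
    have hY : Yᴴ = Y := by
      rw [rlK_transpose] at hX
      exact rlK_inj hX
    have h2 : rlK h.val.val = NormedSpace.exp (rlK Y) := by
      have h3 := congrArg Units.val he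
      rw [expGL_val] at h3
      exact h3
    rw [exp_rlK] at h2
    obtain ⟨h', hh', he'⟩ := hpow Y hY ⟨h, hh, rlK_inj h2⟩ t
    refine ⟨phiHom K r n h', ⟨h', hh', rfl⟩, Units.ext ?_⟩
    rw [expGL_val, ← rlK_smul, exp_rlK, ← he']
    rfl

theorem main {K : Type} [RCLike K] {r n : ℕ}
    (hrn : (r = 2 ∧ 3 ≤ n ∧ Odd n) ∨ (r = 3 ∧ finrank ℝ K = 1 ∧ 11 ≤ n ∧ ¬ 4 ∣ n) ∨
      (r = 3 ∧ 23 ≤ n ∧ Odd n))
    {H : Subgroup (U K r n)} (hH : IsReductive H) (had : AdmitsCocompact H) :
    IsCompact (H : Set (U K r n)) ∨ CompactSpace (U K r n ⧸ H) := by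
  rcases Pool.Agent.Helper20.CK3.Crisp.main hrn (reductive_map hH)
    (admits_map (phi K r n) mem_map_phi had) with h1 | h1
  · left
    have h2 : (H : Set (U K r n)) = (phi K r n).symm ''
        ((H.map (phiHom K r n) : Subgroup (UpqK K r n)) : Set (UpqK K r n)) := by
      ext g
      constructor
      · intro hg
        exact ⟨phi K r n g, (mem_map_phi g).2 hg, (phi K r n).symm_apply_apply g⟩
      · rintro ⟨_, ⟨g', hg', rfl⟩, rfl⟩
        show (phi K r n).symm (phi K r n g') ∈ H
        rwa [ContinuousMulEquiv.symm_apply_apply]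
    rw [h2]
    exact h1.image (phi K r n).symm.continuous
  · exact Or.inr (compact_back (phi K r n) mem_map_phi h1)

end Iso

end Pool.Agent.Helper20.CKN
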