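import Mathlib

/-!
# The groups `O(r,n)`, `U(r,n)`, their reductive subgroups, cocompact discontinuous groups
-/

namespace Pool.Agent.Helper20.CKN

open Matrix

/-- The diagonal matrix with `r` entries `1` and `n` entries `-1`. -/
noncomputable def J (K : Type) [RCLike K] (r n : ℕ) : Matrix (Fin (r + n)) (Fin (r + n)) K :=
  Matrix.diagonal fun i => if (i : ℕ) < r then 1 else -1

/-- The group of the invertible matrices `g` over `K` with `g* J g = J`: it is `O(r, n)` if `K` is
the field of the real numbers, and `U(r, n)` if `K` is the field of the complex numbers. -/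
noncomputable def U (K : Type) [RCLike K] (r n : ℕ) : Subgroup (GL (Fin (r + n)) K) where
  carrier := {g | g.valᴴ * J K r n * g.val = J K r n}
  mul_mem' := by
    intro a b (ha : a.valᴴ * J K r n * a.val = J K r n) (hb : b.valᴴ * J K r n * b.val = J K r n)
    show (a.val * b.val)ᴴ * J K r n * (a.val * b.val) = J K r n
    rw [conjTranspose_mul, Matrix.mul_assoc _ _ (a.val * b.val), Matrix.mul_assoc,
      ← Matrix.mul_assoc (J K r n), ← Matrix.mul_assoc _ _ b.val, ← Matrix.mul_assoc a.valᴴ, ha,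
      ← Matrix.mul_assoc, hb]
  one_mem' := by
    show (1 : Matrix (Fin (r + n)) (Fin (r + n)) K)ᴴ * J K r n * 1 = J K r n
    rw [conjTranspose_one, one_mul, mul_one]
  inv_mem' := by
    intro a (ha : a.valᴴ * J K r n * a.val = J K r n)
    show a⁻¹.valᴴ * J K r n * a⁻¹.val = J K r n
    have h1 : a.val * a⁻¹.val = 1 := a.mul_inv
    have h2 : a⁻¹.valᴴ * a.valᴴ = 1 := by rw [← conjTranspose_mul, h1, conjTranspose_one]
    calc a⁻¹.valᴴ * J K r n * a⁻¹.val = a⁻¹.valᴴ * (a.valᴴ * J K r n * a.val) * a⁻¹.val := by rw [ha]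
      _ = (a⁻¹.valᴴ * a.valᴴ) * J K r n * (a.val * a⁻¹.val) := by simp only [Matrix.mul_assoc]
      _ = J K r n := by rw [h2, h1, one_mul, mul_one]

/-- `H` is closed, stable under `g ↦ g*`, and it contains `exp (t X)` for all real `t` if `X* = X`
and it contains `exp X`. -/
def IsReductive {K : Type} [RCLike K] {r n : ℕ} (H : Subgroup (U K r n)) : Prop :=
  IsClosed (H : Set (U K r n)) ∧ (∀ h ∈ H, ∃ h' ∈ H, h'.val.val = h.val.valᴴ) ∧
  ∀ X : Matrix (Fin (r + n)) (Fin (r + n)) K, Xᴴ = X →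
    (∃ h ∈ H, h.val.val = NormedSpace.exp X) →
    ∀ t : ℝ, ∃ h ∈ H, h.val.val = NormedSpace.exp (t • X)

/-- `Γ` is a cocompact discontinuous group for `G ⧸ H`: it is a discrete subgroup of `G`, it acts on
`G ⧸ H` freely and properly discontinuously (for every compact `C` only finitely many `γ` in `Γ`
satisfy `γ C ∩ C ≠ ∅`), and the quotient of `G ⧸ H` by `Γ` is compact. -/
def IsCocompactDiscontinuousGroup {G : Type} [Group G] [TopologicalSpace G] (Γ H : Subgroup G) :
    Prop :=
  DiscreteTopology Γ ∧ (∀ γ ∈ Γ, ∀ x : G ⧸ H, γ • x = x → γ = 1) ∧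
  (∀ C : Set (G ⧸ H), IsCompact C → {γ : G | γ ∈ Γ ∧ ∃ x ∈ C, γ • x ∈ C}.Finite) ∧
  CompactSpace (MulAction.orbitRel.Quotient Γ (G ⧸ H))

/-- `G ⧸ H` admits a cocompact discontinuous group. -/
def AdmitsCocompact {G : Type} [Group G] [TopologicalSpace G] (H : Subgroup G) : Prop :=
  ∃ Γ : Subgroup G, IsCocompactDiscontinuousGroup Γ H

end Pool.Agent.Helper20.CKN
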