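import Pool.Agent.Helper20.CK3.R1Defs
import Pool.Agent.Helper20.CK3.Fix
import Pool.Agent.Helper20.CK3.RankOne3

/-!
# Reductive subgroups of real rank one of `O(r,n)`, `U(r,n)`
-/

set_option autoImplicit false

namespace Pool.Agent.Helper20.CKN

open Matrix Module Topology Pool.Agent.Helper29.CKP Pool.Agent.Helper20.CKP
  Pool.Agent.Helper17.CKF

variable {K : Type} [RCLike K] {r n : ℕ}

theorem P_eq (B : Matrix (Fin r) (Fin n) K) : P B = ckb 0 B Bᴴ 0 := rfl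

theorem mem_pH {H : Subgroup (U K r n)} (hH : IsReductive H) (B : Matrix (Fin r) (Fin n) K) :
    pcK K r n B ∈ pSpace ((H.map (phiHom K r n)).map (UpqK K r n).subtype) ↔ B ∈ pH H := by
  constructor
  · intro hB
    obtain ⟨B', hB', hexp⟩ := of_mem_p hH hB
    obtain rfl := pcK_inj hB'
    obtain ⟨h, hh, he⟩ := hexp 1
    rw [one_smul] at he
    exact ⟨h, hh, he⟩
  · rintro ⟨h, hh, he⟩
    refine (mem_pSpace (reductive_map hH)).2 ⟨pcK_transpose B, phiHom K r n h, ⟨h, hh, rfl⟩, ?_⟩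
    refine Units.ext ?_
    rw [expGL_val]
    show rlK h.val.val = NormedSpace.exp (rlK (ckb 0 B Bᴴ 0))
    rw [exp_rlK, he]
    rfl

theorem rank_map {H : Subgroup (U K r n)} (hH : IsReductive H) (h1 : RealRankLeOne H) :
    CKP.RealRankLeOne ((H.map (phiHom K r n)).map (UpqK K r n).subtype) := by
  intro X hX Y hY hXY hind
  obtain ⟨B, rfl, -⟩ := of_mem_p hH hX
  obtain ⟨B', rfl, -⟩ := of_mem_p hH hY
  refine h1 B ((mem_pH hH B).1 hX) B' ((mem_pH hH B').1 hY) ?_ ?_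
  · rw [P_eq, P_eq]
    refine rlK_inj ?_
    rw [rlK_mul, rlK_mul]
    exact hXY
  · refine LinearIndependent.of_comp (pcK K r n) ?_
    have h2 : (pcK K r n) ∘ ![B, B'] = ![pcK K r n B, pcK K r n B'] := by
      ext i
      fin_cases i <;> rfl
    rw [h2]
    exact hind

theorem compact_nat {H : Subgroup (U K r n)} (hH : IsReductive H)
    (h : pSpace ((H.map (phiHom K r n)).map (UpqK K r n).subtype) = ⊥) :
    IsCompact (H : Set (U K r n)) := by
  have h1 := compact_of_bot (reductive_map hH) h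
  have h2 : (H : Set (U K r n)) = (phi K r n).symm ''
      ((H.map (phiHom K r n) : Subgroup (UpqK K r n)) : Set (UpqK K r n)) := by
    ext g
    constructor
    · intro hg
      exact ⟨phi K r n g, (mem_map_phi g).2 hg, (phi K r n).symm_apply_apply g⟩
    · rintro ⟨_, ⟨g', hg', rfl⟩, rfl⟩
      show (phi K r n).symm (phi K r n g') ∈ H
      rwa [ContinuousMulEquiv.symm_apply_apply]
  rw [h2]
  exact h1.image (phi K r n).symm.continuous

theorem real_rank_one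
    (hn : finrank ℝ K * r * (finrank ℝ K * r + 2) ≤ finrank ℝ K * n + 4)
    {H : Subgroup (U K r n)} (hH : IsReductive H) (h1 : RealRankLeOne H)
    (had : AdmitsCocompact H) :
    IsCompact (H : Set (U K r n)) ∨
    (Type1 H ∧ ∀ t, 2 ^ t < 2 * r → 2 ^ t ∣ n) ∨
    (Type2 H ∧ (finrank ℝ K = 1 → r = 2)) ∨
    ∃ N, n ≤ N + 2 ∧ finrank ℝ K = 1 ∧ Type4 N H := by
  have hred := reductive_map hH
  have had' := admits_map (phi K r n) mem_map_phi had
  have key : ∀ {ι : Type} (F : ι → Matrix (Fin r) (Fin n) K),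
      (∀ X, X ∈ pSpace ((H.map (phiHom K r n)).map (UpqK K r n).subtype) ↔
        ∃ x, X = pcK K r n (F x)) → ∀ B, B ∈ pH H ↔ ∃ x, B = F x := by
    intro ι F hF B
    rw [← mem_pH hH, hF]
    exact ⟨fun ⟨x, hx⟩ => ⟨x, pcK_inj hx⟩, fun ⟨x, hx⟩ => ⟨x, by rw [hx]⟩⟩
  rcases Pool.Agent.Helper20.CK3.rank_one_list hn hred (rank_map hH h1) had' with
    h | ⟨hdvd, u, hu, h⟩ | ⟨V, S, hr, hV, hT, hS, h⟩ |
    ⟨hK, N, V, A, I, J, h1, h2, h3, h4, h5, h6, h7, h8, h⟩
  · exact Or.inl (compact_nat hH h)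
  · exact Or.inr (Or.inl ⟨⟨u, hu, key _ h⟩, hdvd⟩)
  · exact Or.inr (Or.inr (Or.inl ⟨⟨V, S, hV, hT, hS, key _ h⟩, hr⟩))
  · exact Or.inr (Or.inr (Or.inr ⟨N, h1, hK, V, A, I, J, h2, h3, h4, h5, h6, h7, h8, key _ h⟩))

end Pool.Agent.Helper20.CKN
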