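import Pool.Agent.Helper20.CK3.NatDefs

/-!
# Reductive subgroups of real rank one of `O(r,n)`, `U(r,n)`: definitions
-/

namespace Pool.Agent.Helper20.CKN

open Matrix Module

variable {K : Type} [RCLike K] {r n : ℕ}

/-- The matrix `(0, B; B*, 0)`. -/
def P (B : Matrix (Fin r) (Fin n) K) : Matrix (Fin (r + n)) (Fin (r + n)) K :=
  (fromBlocks 0 B Bᴴ 0).submatrix finSumFinEquiv.symm finSumFinEquiv.symm

/-- The space `p_H` of the Cartan decomposition of `H`: the matrices `B` with `exp (P B)` in `H`. -/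
def pH (H : Subgroup (U K r n)) : Set (Matrix (Fin r) (Fin n) K) :=
  {B | ∃ h ∈ H, h.val.val = NormedSpace.exp (P B)}

/-- The real rank of `H` is at most one: if `P B` and `P B'` commute, `B`, `B'` in `p_H`, then `B` and
`B'` are linearly dependent. -/
def RealRankLeOne (H : Subgroup (U K r n)) : Prop :=
  ∀ B ∈ pH H, ∀ B' ∈ pH H, P B * P B' = P B' * P B → ¬ LinearIndependent ℝ ![B, B']

/-- `p_H` is that of a subgroup `U(1, n; K)`: the matrices `u xᵀ` for a fixed nonzero `u`. -/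
def Type1 (H : Subgroup (U K r n)) : Prop :=
  ∃ u : Fin r → K, u ≠ 0 ∧ ∀ B, B ∈ pH H ↔ ∃ x : Fin n → K, B = vecMulVec u x

/-- `p_H` is that of a subgroup `U(1, n / 2)` of `O(2, n)` or `Sp(1, n / 2)` of `U(2, n)`: the
matrices `V (y; S ȳ)`, with fixed `V` (two orthonormal columns) and `S` (unitary, skew). -/
def Type2 (H : Subgroup (U K r n)) : Prop :=
  ∃ (V : Matrix (Fin r) (Fin 2) K) (S : Matrix (Fin n) (Fin n) K), Vᴴ * V = 1 ∧ Sᵀ = -S ∧
    S * Sᴴ = 1 ∧ ∀ B, B ∈ pH H ↔ ∃ y : Fin n → K, B = V * Matrix.of ![y, S *ᵥ star y]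

/-- `p_H` is that of a subgroup `Sp(1, N / 4)` of `O(4, N)`: the matrices with the rows `A y`,
`A I y`, `A J y`, `A I J y` multiplied by `V`, where `V` has four and `A` has `N` orthonormal columns
and `I`, `J` are anticommuting skew complex structures of `K ^ N`. -/
def Type4 (N : ℕ) (H : Subgroup (U K r n)) : Prop :=
  ∃ (V : Matrix (Fin r) (Fin 4) K) (A : Matrix (Fin n) (Fin N) K) (I J : Matrix (Fin N) (Fin N) K),
    Vᴴ * V = 1 ∧ Aᴴ * A = 1 ∧ Iᵀ = -I ∧ Jᵀ = -J ∧ I * I = -1 ∧ J * J = -1 ∧ I * J = -(J * I) ∧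
    ∀ B, B ∈ pH H ↔ ∃ y : Fin N → K,
      B = V * Matrix.of ![A *ᵥ y, A *ᵥ (I *ᵥ y), A *ᵥ (J *ᵥ y), A *ᵥ ((I * J) *ᵥ y)]

end Pool.Agent.Helper20.CKN
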