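import Pool.Agent.Helper20.CKP.RList
import Pool.Agent.Helper29.ZBU.Spheres

/-!
# Compact Clifford-Klein forms of `U(3, n; K)`: the statements of the pieces
-/

set_option autoImplicit false

namespace Pool.Agent.Helper20.CK3

open Matrix Module Pool.Agent.Helper40.CK Pool.Agent.Helper20.CKP Pool.Agent.Helper29.CKP
  Pool.Agent.Helper17.CKF

section Defs

variable {K : Type} [RCLike K] {n : ℕ}

/-- The matrix `(s 0, 0, 0, 0, ..; 0, s 1, 0, 0, ..; 0, 0, s 2, 0, ..)`. -/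
def dg (K : Type) [RCLike K] (n : ℕ) (s : Fin 3 → ℝ) : Matrix (Fin 3) (Fin n) K :=
  Matrix.of fun i j => if (i : ℕ) = (j : ℕ) then ((s i : ℝ) : K) else 0

/-- `B` is conjugate to `C`. -/
def Cj (B C : Matrix (Fin 3) (Fin n) K) : Prop :=
  ∃ (U : Matrix (Fin 3) (Fin 3) K) (W : Matrix (Fin n) (Fin n) K), U * Uᴴ = 1 ∧ W * Wᴴ = 1 ∧
    B = U * C * W

/-- `s` is the sequence of the singular values of `B`. -/
structure IsSing (B : Matrix (Fin 3) (Fin n) K) (s : Fin 3 → ℝ) : Prop where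
  anti : Antitone s
  nonneg : ∀ i, 0 ≤ s i
  conj : Cj B (dg K n s)

/-- `B` and `C` commute (as elements of `p`). -/
def Cm (B C : Matrix (Fin 3) (Fin n) K) : Prop := B * Cᴴ = C * Bᴴ ∧ Bᴴ * C = Cᴴ * B

/-- Lie triple system -/
def Lts (V : Submodule ℝ (Matrix (Fin 3) (Fin n) K)) : Prop :=
  ∀ B ∈ V, ∀ C ∈ V, (2 : ℝ) • (B * Cᴴ * B) - C * Bᴴ * B - B * Bᴴ * C ∈ V

end Defs

/-- continuous singular values -/
def S_SV : Prop := ∀ (K : Type) [RCLike K] (n : ℕ), 3 ≤ n →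
  ∃ sg : Matrix (Fin 3) (Fin n) K → Fin 3 → ℝ, Continuous sg ∧ (∀ B, IsSing B (sg B)) ∧
    (∀ B s, IsSing B s → s = sg B) ∧
    ∀ B, B * Bᴴ * (B * Bᴴ) * (B * Bᴴ) - ((∑ i, sg B i ^ 2 : ℝ) : K) • (B * Bᴴ * (B * Bᴴ)) +
      ((sg B 0 ^ 2 * sg B 1 ^ 2 + sg B 0 ^ 2 * sg B 2 ^ 2 + sg B 1 ^ 2 * sg B 2 ^ 2 : ℝ) : K) •
        (B * Bᴴ) - ((sg B 0 ^ 2 * sg B 1 ^ 2 * sg B 2 ^ 2 : ℝ) : K) • 1 = 0

/-- permutations and signs -/
def S_WY : Prop := ∀ (K : Type) [RCLike K] (n : ℕ), 3 ≤ n → ∀ (e : Equiv.Perm (Fin 3))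
  (η s : Fin 3 → ℝ), (∀ i, η i = 1 ∨ η i = -1) →
    Cj (dg K n fun i => η i * s (e i)) (dg K n s)

/-- The chambers: an odd map which avoids the conjugates of the diagonal matrices of a plane `ν ⊥`
misses a wall. -/
def S_CH : Prop := ∀ (K : Type) [RCLike K] (n : ℕ), 3 ≤ n → ∀ (E : Type) [AddCommGroup E]
  [Module ℝ E] [TopologicalSpace E] [IsTopologicalAddGroup E] [ContinuousSMul ℝ E] [T2Space E]
  [FiniteDimensional ℝ E], 2 ≤ finrank ℝ E → ∀ F : E → Matrix (Fin 3) (Fin n) K,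
    ContinuousOn F {0}ᶜ → ∀ ν : Fin 3 → ℝ, ν ≠ 0 →
    (∀ x, x ≠ 0 → ∀ s : Fin 3 → ℝ, ∑ i, ν i * s i = 0 → ¬ Cj (F x) (dg K n s)) →
    (∀ x, x ≠ 0 → ∀ s, IsSing (F x) s → s 1 < s 0) ∨
    (∀ x, x ≠ 0 → ∀ s, IsSing (F x) s → s 2 < s 1) ∨
    (∀ x, x ≠ 0 → ∀ s, IsSing (F x) s → 0 < s 2)

/-- An even continuous family of lines of `K ^ 3` has an even continuous family of unit vectors. -/
def S_LIFT : Prop := ∀ (K : Type) [RCLike K] (E : Type) [AddCommGroup E]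
  [Module ℝ E] [TopologicalSpace E] [IsTopologicalAddGroup E] [ContinuousSMul ℝ E] [T2Space E]
  [FiniteDimensional ℝ E], 3 * finrank ℝ K + 1 ≤ finrank ℝ E → ∀ P : E → Matrix (Fin 3) (Fin 3) K,
    ContinuousOn P {0}ᶜ → (∀ x, x ≠ 0 → P (-x) = P x ∧ (P x)ᴴ = P x ∧ P x * P x = P x ∧
      (P x).trace = 1) →
    ∃ w : E → Fin 3 → K, ContinuousOn w {0}ᶜ ∧ ∀ x, x ≠ 0 → w (-x) = w x ∧
      P x = vecMulVec (w x) (star (w x))

/-- the first wall -/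
def S_T1 : Prop := ∀ (K : Type) [RCLike K] (n : ℕ), 3 ≤ n → ∀ (E : Type) [AddCommGroup E]
  [Module ℝ E] [TopologicalSpace E] [IsTopologicalAddGroup E] [ContinuousSMul ℝ E] [T2Space E]
  [FiniteDimensional ℝ E] (F : E → Matrix (Fin 3) (Fin n) K), ContinuousOn F {0}ᶜ →
    (∀ x, x ≠ 0 → F (-x) = -F x) → (∀ x, x ≠ 0 → ∀ s, IsSing (F x) s → s 1 < s 0) →
    finrank ℝ E ≤ n * finrank ℝ K

/-- the second wall -/
def S_T2 : Prop := ∀ (K : Type) [RCLike K] (n : ℕ), 3 ≤ n → ∀ (E : Type) [AddCommGroup E]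
  [Module ℝ E] [TopologicalSpace E] [IsTopologicalAddGroup E] [ContinuousSMul ℝ E] [T2Space E]
  [FiniteDimensional ℝ E] (F : E → Matrix (Fin 3) (Fin n) K), ContinuousOn F {0}ᶜ →
    (∀ x, x ≠ 0 → F (-x) = -F x) → (∀ x, x ≠ 0 → ∀ s, IsSing (F x) s → s 2 < s 1) →
    finrank ℝ E ≤ n * finrank ℝ K

/-- the third wall -/
def S_T3 : Prop := ∀ (K : Type) [RCLike K] (n : ℕ), 3 ≤ n → ∀ (E : Type) [AddCommGroup E]
  [Module ℝ E] [TopologicalSpace E] [IsTopologicalAddGroup E] [ContinuousSMul ℝ E] [T2Space E]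
  [FiniteDimensional ℝ E] (F : E → Matrix (Fin 3) (Fin n) K), ContinuousOn F {0}ᶜ →
    (∀ x, x ≠ 0 → F (-x) = -F x) → (∀ x, x ≠ 0 → ∀ s, IsSing (F x) s → 0 < s 2) →
    finrank ℝ E ≤ n * finrank ℝ K ∧ (finrank ℝ E = n * finrank ℝ K → 4 ∣ n)

/-- simultaneous diagonalisation of commuting elements -/
def S_DIAG : Prop := ∀ (K : Type) [RCLike K] (n : ℕ), 3 ≤ n →
  ∀ a : Submodule ℝ (Matrix (Fin 3) (Fin n) K), (∀ A ∈ a, ∀ B ∈ a, Cm A B) →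
    ∃ (U : Matrix (Fin 3) (Fin 3) K) (W : Matrix (Fin n) (Fin n) K), U * Uᴴ = 1 ∧ W * Wᴴ = 1 ∧
      ∀ A ∈ a, ∃ s : Fin 3 → ℝ, U * A * W = dg K n s

/-- Lie triple systems of rank two and large dimension -/
def S_ALG : Prop := ∀ (K : Type) [RCLike K] (n : ℕ), 11 ≤ n →
  ∀ V : Submodule ℝ (Matrix (Fin 3) (Fin n) K), Lts V → ∀ ν : Fin 3 → ℝ, ν ≠ 0 →
    (∀ s : Fin 3 → ℝ, ∑ i, ν i * s i = 0 → dg K n s ∈ V) →
    (∀ X ∈ V, (∀ s : Fin 3 → ℝ, ∑ i, ν i * s i = 0 → Cm X (dg K n s)) →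
      ∃ s : Fin 3 → ℝ, ∑ i, ν i * s i = 0 ∧ X = dg K n s) →
    2 * (n * finrank ℝ K) ≤ finrank ℝ V → ∃ w : Fin 3 → K, w ≠ 0 ∧ ∀ B ∈ V, star w ᵥ* B = 0

/-- the list for `U(3, n; K)`, real rank two or three -/
def S_R23 : Prop := ∀ (K : Type) [RCLike K] (n : ℕ), 11 ≤ n →
  ∀ H : Subgroup (UpqK K 3 n), IsReductive (H.map (UpqK K 3 n).subtype) →
    ¬ RealRankLeOne (H.map (UpqK K 3 n).subtype) → AdmitsCocompact H →
    pSpace (H.map (UpqK K 3 n).subtype) = pSpace (UpqK K 3 n) ∨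
      (4 ∣ n ∧ ∃ w : Fin 3 → K, w ≠ 0 ∧ ∀ X, X ∈ pSpace (H.map (UpqK K 3 n).subtype) ↔
        ∃ B : Matrix (Fin 3) (Fin n) K, star w ᵥ* B = 0 ∧ X = pcK K 3 n B)

end Pool.Agent.Helper20.CK3
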